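import Pool.Agent.Q283.SP.Stm

/-!
# Project SP (helper283): algebra of the group ring of a group of order `p`
-/

set_option autoImplicit false

namespace Pool.Agent.Q123.SP

open Finset Pool.Agent.Q283.SP

variable {p : ℕ} [hp : Fact p.Prime]

section ring

variable {R : Type} [CommRing R]

/-- `T m = m - sh 1 m` -/
def T : (ZMod p → R) →ₗ[R] (ZMod p → R) where
  toFun m := fun i => m i - m (i - 1)
  map_add' m m' := by
    funext i
    simp only [Pi.add_apply]
    ring
  map_smul' c m := by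
    funext i
    simp only [Pi.smul_apply, smul_eq_mul, RingHom.id_apply]
    ring

/-- the shift -/
def Sh : (ZMod p → R) →ₗ[R] (ZMod p → R) where
  toFun m := fun i => m (i - 1)
  map_add' _ _ := rfl
  map_smul' _ _ := rfl

theorem T_apply (m : ZMod p → R) (i : ZMod p) : T m i = m i - m (i - 1) := rfl

theorem T_eq : (T : Module.End R (ZMod p → R)) = 1 - Sh := rfl

theorem Sh_pow (k : ℕ) (m : ZMod p → R) (i : ZMod p) :
    ((Sh : Module.End R (ZMod p → R)) ^ k) m i = m (i - k) := by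
  induction k generalizing m i with
  | zero => simp
  | succ k ih =>
    rw [pow_succ, Module.End.mul_apply, ih]
    change m (i - k - 1) = _
    congr 1
    push_cast
    ring

theorem sum_shift (m : ZMod p → R) (s : ZMod p) : ∑ i, m (i - s) = ∑ i, m i :=
  (Equiv.subRight s).sum_comp m

theorem sum_T (m : ZMod p → R) : ∑ i, T m i = 0 := by
  simp only [T_apply, Finset.sum_sub_distrib]
  rw [sum_shift, sub_self]

/-- the sums of the first entries -/
def Par (m : ZMod p → R) : ZMod p → R := fun i => ∑ k ∈ range (i.val + 1), m (k : ZMod p)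

theorem sum_val (m : ZMod p → R) : ∑ k ∈ range p, m (k : ZMod p) = ∑ i, m i := by
  rw [Finset.sum_range]
  have hp0 : p ≠ 0 := hp.1.ne_zero
  refine Fintype.sum_equiv ⟨fun k : Fin p => ((k : ℕ) : ZMod p), fun i => ⟨i.val, ZMod.val_lt i⟩, ?_, ?_⟩ _ _
    (fun k => rfl)
  · intro k
    apply Fin.ext
    exact ZMod.val_cast_of_lt k.2
  · intro i
    exact ZMod.natCast_zmod_val i

theorem T_Par {m : ZMod p → R} (h : ∑ i, m i = 0) : T (Par m) = m := by
  funext i
  rw [T_apply]
  unfold Par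
  by_cases hi : i = 0
  · subst hi
    have h1 : (0 - 1 : ZMod p).val + 1 = p := by
      rw [zero_sub, ZMod.neg_val, if_neg one_ne_zero, ZMod.val_one p]
      have := hp.1.two_le
      omega
    rw [h1, sum_val, h, ZMod.val_zero, sub_zero]
    simp
  · have h1 : (i - 1).val + 1 = i.val := by
      have h2 : (i - 1).val = i.val - 1 := by
        rw [ZMod.val_sub]
        · rw [ZMod.val_one p]
        · rw [ZMod.val_one p]
          have := (ZMod.val_eq_zero i).not.2 hi
          omega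
      have := (ZMod.val_eq_zero i).not.2 hi
      omega
    rw [h1, Finset.sum_range_succ, add_sub_cancel_left, ZMod.natCast_zmod_val]

end ring

section modp

theorem T_pow_p (m : ZMod p → ZMod p) : ((T : Module.End (ZMod p) (ZMod p → ZMod p)) ^ p) m = 0 := by
  have h1 : (T : Module.End (ZMod p) (ZMod p → ZMod p)) ^ p = 1 - Sh ^ p := by
    have h2 : (1 - Polynomial.X : Polynomial (ZMod p)) ^ p = 1 - Polynomial.X ^ p := by
      rw [sub_pow_char, one_pow]
    have h3 := congrArg (Polynomial.aeval (Sh : Module.End (ZMod p) (ZMod p → ZMod p))) h2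
    simp only [map_pow, map_sub, map_one, Polynomial.aeval_X] at h3
    rw [T_eq]
    exact h3
  rw [h1]
  funext i
  rw [LinearMap.sub_apply, Pi.sub_apply, Sh_pow]
  simp

theorem T_pow_sum {m : ZMod p → ZMod p} (h : ∑ i, m i = 0) :
    ((T : Module.End (ZMod p) (ZMod p → ZMod p)) ^ (p - 1)) m = 0 := by
  have h1 := T_pow_p (Par m)
  have h2 : (T : Module.End (ZMod p) (ZMod p → ZMod p)) ^ p = T ^ (p - 1) * T := by
    rw [← pow_succ]
    congr 1
    have := hp.1.two_le
    omega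
  rw [h2, Module.End.mul_apply, T_Par h] at h1
  exact h1

end modp

section padic

theorem toZ_eq_zero {x : ℤ_[p]} : PadicInt.toZMod x = 0 ↔ (p : ℤ_[p]) ∣ x := by
  rw [← RingHom.mem_ker, PadicInt.ker_toZMod, PadicInt.maximalIdeal_eq_span_p, Ideal.mem_span_singleton]

theorem p_ne : (p : ℤ_[p]) ≠ 0 := by
  exact_mod_cast hp.1.ne_zero

theorem T_toZ (m : ZMod p → ℤ_[p]) (i : ZMod p) :
    PadicInt.toZMod (T m i) = T (fun i => PadicInt.toZMod (m i)) i := by
  rw [T_apply, T_apply, map_sub]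

theorem Tpow_toZ (k : ℕ) (m : ZMod p → ℤ_[p]) : (fun i => PadicInt.toZMod (((T : Module.End ℤ_[p] _) ^ k) m i)) =
    ((T : Module.End (ZMod p) _) ^ k) (fun i => PadicInt.toZMod (m i)) := by
  induction k generalizing m with
  | zero => rfl
  | succ k ih =>
    rw [pow_succ, pow_succ, Module.End.mul_apply, Module.End.mul_apply, ih]
    congr 1
    funext i
    exact T_toZ m i

theorem sum_Tpow {m : ZMod p → ℤ_[p]} (h : ∑ i, m i = 0) (k : ℕ) :
    ∑ i, ((T : Module.End ℤ_[p] _) ^ k) m i = 0 := by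
  cases k with
  | zero => exact h
  | succ k =>
    rw [pow_succ', Module.End.mul_apply]
    exact sum_T _

theorem div_p {m : ZMod p → ℤ_[p]} (h : ∑ i, m i = 0) (hd : ∀ i, (p : ℤ_[p]) ∣ m i) :
    ∃ m' : ZMod p → ℤ_[p], ∑ i, m' i = 0 ∧ m = (p : ℤ_[p]) • m' := by
  choose m' hm' using hd
  refine ⟨m', ?_, ?_⟩
  · have h1 : (p : ℤ_[p]) * ∑ i, m' i = 0 := by
      rw [Finset.mul_sum, ← h]
      exact Finset.sum_congr rfl fun i _ => (hm' i).symm
    exact (mul_eq_zero.1 h1).resolve_left p_ne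
  · funext i
    exact hm' i

/-- `T ^ (p - 1)` is divisible by `p` on the elements of sum `0` -/
theorem T_div_p {m : ZMod p → ℤ_[p]} (h : ∑ i, m i = 0) :
    ∃ m' : ZMod p → ℤ_[p], ∑ i, m' i = 0 ∧ ((T : Module.End ℤ_[p] _) ^ (p - 1)) m = (p : ℤ_[p]) • m' := by
  refine div_p (sum_Tpow h _) fun i => ?_
  rw [← toZ_eq_zero]
  have h1 := congrFun (Tpow_toZ (p - 1) m) i
  rw [h1, T_pow_sum]
  · rfl
  · rw [← map_sum, h, map_zero]

theorem T_div_pow {m : ZMod p → ℤ_[p]} (h : ∑ i, m i = 0) (K : ℕ) :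
    ∃ m' : ZMod p → ℤ_[p], ∑ i, m' i = 0 ∧
      ((T : Module.End ℤ_[p] _) ^ ((p - 1) * K)) m = (p : ℤ_[p]) ^ K • m' := by
  induction K with
  | zero => exact ⟨m, h, by simp⟩
  | succ K ih =>
    obtain ⟨m', h1, h2⟩ := ih
    obtain ⟨m'', h3, h4⟩ := T_div_p h1
    refine ⟨m'', h3, ?_⟩
    rw [Nat.mul_succ, add_comm, pow_add, Module.End.mul_apply, h2, map_smul, h4, smul_smul, pow_succ]

theorem T_inj {m : ZMod p → ℤ_[p]} (h : ∑ i, m i = 0) (hT : T m = 0) : m = 0 := by
  have h1 : ∀ k : ℕ, m (k : ZMod p) = m 0 := by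
    intro k
    induction k with
    | zero => simp
    | succ k ih =>
      have h2 := congrFun hT ((k + 1 : ℕ) : ZMod p)
      rw [T_apply] at h2
      push_cast at h2
      rw [add_sub_cancel_right, ih, Pi.zero_apply, sub_eq_zero] at h2
      push_cast
      exact h2
  have h2 : ∀ i, m i = m 0 := fun i => by
    rw [← h1 i.val, ZMod.natCast_zmod_val]
  have h3 : (p : ℤ_[p]) * m 0 = 0 := by
    rw [← h, Finset.sum_congr rfl fun i _ => h2 i]
    simp [ZMod.card]
  have h4 := (mul_eq_zero.1 h3).resolve_left p_ne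
  funext i
  rw [h2, h4]
  rfl

theorem T_inj' {m m' : ZMod p → ℤ_[p]} (h : ∑ i, m i = 0) (h' : ∑ i, m' i = 0) (hT : T m = T m') : m = m' := by
  rw [← sub_eq_zero]
  refine T_inj ?_ ?_
  · simp only [Pi.sub_apply, Finset.sum_sub_distrib, h, h', sub_zero]
  · rw [map_sub, hT, sub_self]

theorem Tpow_inj {m m' : ZMod p → ℤ_[p]} (h : ∑ i, m i = 0) (h' : ∑ i, m' i = 0) (k : ℕ)
    (hT : ((T : Module.End ℤ_[p] _) ^ k) m = ((T : Module.End ℤ_[p] _) ^ k) m') : m = m' := by
  induction k with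
  | zero => exact hT
  | succ k ih =>
    rw [pow_succ', Module.End.mul_apply, Module.End.mul_apply] at hT
    exact ih (T_inj' (sum_Tpow h k) (sum_Tpow h' k) hT)

theorem lam_add (m m' : ZMod p → ℤ_[p]) : lam (m + m') = lam m + lam m' := by
  unfold lam
  rw [← Finset.sum_add_distrib]
  refine Finset.sum_congr rfl fun i _ => ?_
  rw [Pi.add_apply, map_add, mul_add]

theorem lam_smul (c : ℤ_[p]) (m : ZMod p → ℤ_[p]) : lam (c • m) = PadicInt.toZMod c * lam m := by
  unfold lam
  rw [Finset.mul_sum]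
  refine Finset.sum_congr rfl fun i _ => ?_
  rw [Pi.smul_apply, smul_eq_mul, map_mul]
  ring

theorem lam_zero : lam (0 : ZMod p → ℤ_[p]) = 0 := by
  unfold lam
  simp

theorem lam_neg (m : ZMod p → ℤ_[p]) : lam (-m) = -lam m := by
  have h := lam_add m (-m)
  rw [add_neg_cancel, lam_zero] at h
  exact (neg_eq_of_add_eq_zero_right h.symm).symm

theorem lam_sub (m m' : ZMod p → ℤ_[p]) : lam (m - m') = lam m - lam m' := by
  rw [sub_eq_add_neg, lam_add, lam_neg, sub_eq_add_neg]

theorem lam_sum {ι : Type} (s : Finset ι) (f : ι → ZMod p → ℤ_[p]) : lam (∑ j ∈ s, f j) = ∑ j ∈ s, lam (f j) := by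
  classical
  induction s using Finset.induction_on with
  | empty => simp [lam_zero]
  | insert a s ha ih => rw [Finset.sum_insert ha, Finset.sum_insert ha, lam_add, ih]

/-- the shift by `s` -/
theorem lam_sh (s : ZMod p) (m : ZMod p → ℤ_[p]) : lam (sh s m) = lam m + s * PadicInt.toZMod (∑ i, m i) := by
  unfold lam sh
  have h1 : ∑ i : ZMod p, i * PadicInt.toZMod (m (i - s)) = ∑ i : ZMod p, (i + s) * PadicInt.toZMod (m i) := by
    refine Fintype.sum_equiv (Equiv.subRight s) _ _ fun i => ?_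
    simp
  rw [h1, map_sum, Finset.mul_sum, ← Finset.sum_add_distrib]
  refine Finset.sum_congr rfl fun i _ => ?_
  ring

theorem T_sh (m : ZMod p → ℤ_[p]) : T m = m - sh 1 m := rfl

theorem lam_T (m : ZMod p → ℤ_[p]) : lam (T m) = - PadicInt.toZMod (∑ i, m i) := by
  rw [T_sh, lam_sub, lam_sh]
  ring

/-- (i) -/
theorem T_of_lam {m : ZMod p → ℤ_[p]} (h : ∑ i, m i = 0) (hl : lam m = 0) :
    ∃ m' : ZMod p → ℤ_[p], ∑ i, m' i = 0 ∧ T m' = m := by
  have h1 := lam_T (Par m)
  rw [T_Par h, hl, eq_comm, neg_eq_zero, toZ_eq_zero] at h1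
  obtain ⟨c, hc⟩ := h1
  refine ⟨fun i => Par m i - c, ?_, ?_⟩
  · rw [Finset.sum_sub_distrib, hc]
    simp [ZMod.card]
  · funext i
    have h2 := congrFun (T_Par h) i
    rw [← h2, T_apply, T_apply]
    ring

/-- (iii) -/
theorem exists_unit_part {m : ZMod p → ℤ_[p]} (h : ∑ i, m i = 0) (h0 : m ≠ 0) :
    ∃ (k : ℕ) (v : ZMod p → ℤ_[p]), ∑ i, v i = 0 ∧ lam v ≠ 0 ∧ m = ((T : Module.End ℤ_[p] _) ^ k) v := by
  by_contra hcon
  push Not at hcon
  have h1 : ∀ k : ℕ, ∃ v : ZMod p → ℤ_[p], ∑ i, v i = 0 ∧ m = ((T : Module.End ℤ_[p] _) ^ k) v := by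
    intro k
    induction k with
    | zero => exact ⟨m, h, rfl⟩
    | succ k ih =>
      obtain ⟨v, hv, hm⟩ := ih
      have h2 : lam v = 0 := by
        by_contra h3
        exact hcon k v hv h3 hm
      obtain ⟨v', hv', rfl⟩ := T_of_lam hv h2
      exact ⟨v', hv', by rw [hm, pow_succ, Module.End.mul_apply]⟩
  apply h0
  funext i
  have h2 : ∀ K : ℕ, (p : ℤ_[p]) ^ K ∣ m i := by
    intro K
    obtain ⟨v, hv, hm⟩ := h1 ((p - 1) * K)
    obtain ⟨m', _, h3⟩ := T_div_pow hv K
    rw [hm, h3]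
    exact ⟨m' i, rfl⟩
  have h3 : ∀ n : ℕ, m i ∈ (Ideal.span {(p : ℤ_[p]) ^ n} : Ideal ℤ_[p]) := fun n =>
    Ideal.mem_span_singleton.2 (h2 n)
  simp only [← PadicInt.norm_le_pow_iff_mem_span_pow] at h3
  have h4 : ‖m i‖ ≤ 0 := by
    refine ge_of_tendsto' (f := fun n : ℕ => (p : ℝ) ^ (-(n : ℤ))) (x := Filter.atTop) ?_ h3
    have h5 : (fun n : ℕ => (p : ℝ) ^ (-(n : ℤ))) = fun n : ℕ => ((p : ℝ)⁻¹) ^ n := by
      funext n
      rw [zpow_neg, zpow_natCast, inv_pow]
    rw [h5]
    exact tendsto_pow_atTop_nhds_zero_of_lt_one (by positivity)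
      (inv_lt_one_of_one_lt₀ (by exact_mod_cast hp.1.one_lt))
  exact norm_le_zero_iff.1 h4

/-! ### the product of the group ring -/

theorem conv_apply (e m : ZMod p → ℤ_[p]) (i : ZMod p) : conv e m i = ∑ k, e k * m (i - k) := rfl

theorem conv_comm (e m : ZMod p → ℤ_[p]) : conv e m = conv m e := by
  funext i
  rw [conv_apply, conv_apply]
  refine Fintype.sum_equiv (Equiv.subLeft i) _ _ fun k => ?_
  simp [mul_comm]

theorem conv_add (e m m' : ZMod p → ℤ_[p]) : conv e (m + m') = conv e m + conv e m' := by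
  funext i
  simp only [conv_apply, Pi.add_apply, mul_add, Finset.sum_add_distrib]

theorem conv_smul (e : ZMod p → ℤ_[p]) (c : ℤ_[p]) (m : ZMod p → ℤ_[p]) : conv e (c • m) = c • conv e m := by
  funext i
  simp only [conv_apply, Pi.smul_apply, smul_eq_mul, Finset.mul_sum]
  exact Finset.sum_congr rfl fun k _ => by ring

/-- the product by `e` as a linear map -/
noncomputable def convL (e : ZMod p → ℤ_[p]) : (ZMod p → ℤ_[p]) →ₗ[ℤ_[p]] (ZMod p → ℤ_[p]) where
  toFun := conv e
  map_add' := conv_add e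
  map_smul' := conv_smul e

theorem conv_sub (e m m' : ZMod p → ℤ_[p]) : conv e (m - m') = conv e m - conv e m' := (convL e).map_sub m m'

theorem conv_zero (e : ZMod p → ℤ_[p]) : conv e 0 = 0 := (convL e).map_zero

theorem add_conv (e e' m : ZMod p → ℤ_[p]) : conv (e + e') m = conv e m + conv e' m := by
  rw [conv_comm, conv_add, conv_comm m, conv_comm m]

theorem sub_conv (e e' m : ZMod p → ℤ_[p]) : conv (e - e') m = conv e m - conv e' m := by
  rw [conv_comm, conv_sub, conv_comm m, conv_comm m]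

theorem smul_conv (c : ℤ_[p]) (e m : ZMod p → ℤ_[p]) : conv (c • e) m = c • conv e m := by
  rw [conv_comm, conv_smul, conv_comm m]

theorem zero_conv (m : ZMod p → ℤ_[p]) : conv 0 m = 0 := by
  rw [conv_comm, conv_zero]

theorem conv_conv (e e' m : ZMod p → ℤ_[p]) : conv e (conv e' m) = conv (conv e e') m := by
  funext i
  simp only [conv_apply, Finset.sum_mul, Finset.mul_sum]
  conv_rhs => rw [Finset.sum_comm]
  refine Finset.sum_congr rfl fun k _ => ?_
  refine Fintype.sum_equiv (Equiv.addLeft k) _ _ fun l => ?_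
  simp only [Equiv.coe_addLeft, add_sub_cancel_left]
  rw [mul_assoc]
  congr 3
  ring

theorem conv_sh (s : ZMod p) (e m : ZMod p → ℤ_[p]) : conv e (sh s m) = sh s (conv e m) := by
  funext i
  unfold sh
  simp only [conv_apply]
  refine Finset.sum_congr rfl fun k _ => ?_
  congr 2
  ring

theorem conv_T (e m : ZMod p → ℤ_[p]) : conv e (T m) = T (conv e m) := by
  rw [T_sh, conv_sub, conv_sh]
  rfl

theorem T_conv (e m : ZMod p → ℤ_[p]) : conv (T e) m = T (conv e m) := by
  rw [conv_comm, conv_T, conv_comm]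

theorem Tpow_conv (k : ℕ) (e m : ZMod p → ℤ_[p]) :
    conv (((T : Module.End ℤ_[p] _) ^ k) e) m = ((T : Module.End ℤ_[p] _) ^ k) (conv e m) := by
  induction k with
  | zero => rfl
  | succ k ih => rw [pow_succ', Module.End.mul_apply, T_conv, ih, Module.End.mul_apply]

theorem sum_conv (e m : ZMod p → ℤ_[p]) : ∑ i, conv e m i = (∑ i, e i) * ∑ i, m i := by
  simp only [conv_apply]
  rw [Finset.sum_comm, Finset.sum_mul]
  refine Finset.sum_congr rfl fun k _ => ?_
  rw [← Finset.mul_sum, sum_shift]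

theorem conv_eq_sum (e m : ZMod p → ℤ_[p]) : conv e m = ∑ k, e k • sh k m := by
  funext i
  rw [conv_apply, Finset.sum_apply]
  rfl

theorem lam_conv (e : ZMod p → ℤ_[p]) {m : ZMod p → ℤ_[p]} (h : ∑ i, m i = 0) :
    lam (conv e m) = PadicInt.toZMod (∑ i, e i) * lam m := by
  rw [conv_eq_sum, lam_sum, map_sum, Finset.sum_mul]
  refine Finset.sum_congr rfl fun k _ => ?_
  rw [lam_smul, lam_sh, h, map_zero, mul_zero, add_zero]

/-- `conv gT (T m) = p m` for `m` of sum `0` -/
noncomputable def gT : ZMod p → ℤ_[p] := fun i => -((i.val : ℕ) : ℤ_[p])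

theorem T_gT (i : ZMod p) : T (gT : ZMod p → ℤ_[p]) i = (if i = 0 then (p : ℤ_[p]) else 0) - 1 := by
  rw [T_apply]
  unfold gT
  by_cases hi : i = 0
  · subst hi
    have h1 : (0 - 1 : ZMod p).val = p - 1 := by
      rw [zero_sub, ZMod.neg_val, if_neg one_ne_zero, ZMod.val_one p]
    rw [if_pos rfl, h1, ZMod.val_zero, Nat.cast_sub hp.1.one_le]
    push_cast
    ring
  · have h0 := (ZMod.val_eq_zero i).not.2 hi
    have h2 : (i - 1).val = i.val - 1 := by
      rw [ZMod.val_sub]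
      · rw [ZMod.val_one p]
      · rw [ZMod.val_one p]
        omega
    rw [if_neg hi, h2, Nat.cast_sub (by omega)]
    push_cast
    ring

theorem gT_conv {m : ZMod p → ℤ_[p]} (h : ∑ i, m i = 0) : conv gT (T m) = (p : ℤ_[p]) • m := by
  rw [conv_T, ← T_conv]
  funext i
  rw [conv_apply]
  simp only [T_gT, sub_mul, one_mul, Finset.sum_sub_distrib, ite_mul, zero_mul]
  rw [Finset.sum_ite_eq' univ (0 : ZMod p), if_pos (mem_univ _), sub_zero, Pi.smul_apply, smul_eq_mul]
  have h1 : ∑ k, m (i - k) = 0 := by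
    rw [← h]
    exact (Equiv.subLeft i).sum_comp m
  rw [h1, sub_zero]

/-- nonzero divisors -/
theorem conv_eq_zero {e u : ZMod p → ℤ_[p]} (hu : ∑ i, u i = 0) (hl : lam u ≠ 0) (h : conv e u = 0) : T e = 0 := by
  by_contra h0
  obtain ⟨k, v, hv, hlv, hT⟩ := exists_unit_part (sum_T e) h0
  have h1 : T (Par v) = v := T_Par hv
  have h2 : ((T : Module.End ℤ_[p] _) ^ k) (T (conv (Par v) u)) = ((T : Module.End ℤ_[p] _) ^ k) 0 := by
    rw [← T_conv, h1, ← Tpow_conv, ← hT, T_conv, h, map_zero, map_zero]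
  have h3 := Tpow_inj (sum_T _) (by simp) k h2
  have h4 : conv (Par v) u = 0 := T_inj (by rw [sum_conv, hu, mul_zero]) h3
  have h5 := lam_conv (Par v) hu
  rw [h4, lam_zero] at h5
  have h6 := lam_T (Par v)
  rw [h1] at h6
  rcases mul_eq_zero.1 h5.symm with h7 | h7
  · rw [h7, neg_zero] at h6
    exact hlv h6
  · exact hl h7

/-- if `T e = 0` then `e` is constant -/
theorem const_of_T {R : Type} [CommRing R] {m : ZMod p → R} (hT : T m = 0) (i : ZMod p) : m i = m 0 := by
  have h1 : ∀ k : ℕ, m (k : ZMod p) = m 0 := by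
    intro k
    induction k with
    | zero => simp
    | succ k ih =>
      have h2 := congrFun hT ((k + 1 : ℕ) : ZMod p)
      rw [T_apply] at h2
      push_cast at h2
      rw [add_sub_cancel_right, ih, Pi.zero_apply, sub_eq_zero] at h2
      push_cast
      exact h2
  rw [← h1 i.val, ZMod.natCast_zmod_val]

end padic

end Pool.Agent.Q123.SP
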