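import Pool.Agent.Q123.SP.Chr

/-!
# Project SP (helper283), job CRI: the criterion
-/

set_option autoImplicit false

namespace Pool.Agent.Q123.SP

open NumberField IsDedekindDomain Filter Topology Finset
open Pool.Agent.Q283.SP
open Pool.Agent.Q283.LS (Dec Inr)
open Pool.Agent.Q7.LK (Dp vl Lpw IsPow Cond AT Many)

theorem lam_delta {p : ℕ} [Fact p.Prime] : lam (Pi.single 0 1 : ZMod p → ℤ_[p]) = 0 := by
  unfold lam
  refine Finset.sum_eq_zero fun i _ => ?_
  by_cases hi : i = 0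
  · rw [hi, zero_mul]
  · rw [Pi.single_eq_of_ne hi, map_zero, mul_zero]

theorem sum_delta {p : ℕ} [Fact p.Prime] : ∑ i, (Pi.single 0 1 : ZMod p → ℤ_[p]) i = 1 := by
  rw [Finset.sum_pi_single' (0 : ZMod p) (1 : ℤ_[p]) univ, if_pos (mem_univ _)]

theorem lam_one {p : ℕ} [Fact p.Prime] (hp2 : p ≠ 2) : lam (fun _ => 1 : ZMod p → ℤ_[p]) = 0 := by
  unfold lam
  simp only [map_one, mul_one]
  have h1 : ∑ i : ZMod p, i = ∑ i : ZMod p, -i := (Equiv.sum_comp (Equiv.neg (ZMod p)) (fun i => i)).symm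
  rw [Finset.sum_neg_distrib] at h1
  have h2 : (2 : ZMod p) * ∑ i : ZMod p, i = 0 := by
    rw [two_mul]
    nth_rewrite 2 [h1]
    rw [add_neg_cancel]
  refine (mul_eq_zero.1 h2).resolve_left ?_
  intro h3
  have h4 : ((2 : ℕ) : ZMod p) = 0 := by exact_mod_cast h3
  rw [ZMod.natCast_eq_zero_iff] at h4
  have h5 := Nat.le_of_dvd (by norm_num) h4
  have h6 := (Fact.out : p.Prime).two_le
  omega

theorem cri (hCON : S_CON) (hSAT : S_SATV) (hKUM : S_KUM) : S_CRI := by
  classical
  intro p hp hp2 Ω _ _ _ _ F _ ζ hζ r d x n t g hr hx hd hcount hg hind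
  -- elementary facts
  have hd0 : d ≠ 0 := by
    rintro rfl
    exact hd ⟨0, by rw [zero_pow hp.1.ne_zero]⟩
  have hx0 : x ≠ 0 := by
    rintro rfl
    apply hd0
    have h1 : (d : Ω) = 0 := by rw [← hx, zero_pow hp.1.ne_zero]
    exact_mod_cast h1
  set ρ : F.fixingSubgroup → ℤ_[p] := fun σ => chi p σ.1 ^ r with hρ
  set s : F.fixingSubgroup → ZMod p := fun σ => ex (ζ : Ω) x σ.1 with hs
  have hρm : ∀ σ τ, ρ (σ * τ) = ρ σ * ρ τ := by
    intro σ τ
    simp only [hρ]
    rw [Subgroup.coe_mul, chi_mul, mul_pow]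
  have hρ1 : ∀ σ, (p : ℤ_[p]) ∣ ρ σ - 1 := fun σ => chi_dvd_pow hζ σ.2 r
  have hsm : ∀ σ τ, s (σ * τ) = s σ + s τ := fun σ τ => ex_mul hζ σ.2 τ.2 hx hx0
  have hρc : Continuous ρ := (chi_cont.comp continuous_subtype_val).pow r
  have hsc : IsLocallyConstant s := (ex_locConst (p := p) (ζ : Ω) x).comp_continuous continuous_subtype_val
  choose c hc using hρ1
  -- the first cocycle
  set b0 : F.fixingSubgroup → ZMod p → ℤ_[p] := fun σ => act ρ s σ (Pi.single 0 1) - Pi.single 0 1 - c σ • (fun _ => 1)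
    with hb0
  set v0 : ZMod p → ℤ_[p] := (p : ℤ_[p]) • Pi.single 0 1 - (fun _ => 1) with hv0
  have hv0s : ∑ i, v0 i = 0 := by
    rw [hv0]
    simp only [Pi.sub_apply, Pi.smul_apply, smul_eq_mul, Finset.sum_sub_distrib, ← Finset.mul_sum]
    rw [sum_delta]
    simp [ZMod.card]
  have hact1 : ∀ σ, act ρ s σ (fun _ => 1) = ρ σ • (fun _ => 1) := fun σ => rfl
  have hpb : ∀ σ, (p : ℤ_[p]) • b0 σ = act ρ s σ v0 - v0 := by
    intro σ
    rw [hv0, act_sub, act_smul, hact1, hb0]
    funext i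
    simp only [Pi.smul_apply, Pi.sub_apply, smul_eq_mul, mul_one]
    linear_combination hc σ
  have hb0s : ∀ σ, ∑ i, b0 σ i = 0 := by
    intro σ
    have h1 : (p : ℤ_[p]) * ∑ i, b0 σ i = 0 := by
      rw [Finset.mul_sum]
      have h2 : ∀ i, (p : ℤ_[p]) * b0 σ i = act ρ s σ v0 i - v0 i := fun i => congrFun (hpb σ) i
      rw [Finset.sum_congr rfl fun i _ => h2 i, Finset.sum_sub_distrib, sum_act, hv0s, mul_zero, sub_zero]
    exact (mul_eq_zero.1 h1).resolve_left p_ne
  have hb0l : ∀ σ, lam (b0 σ) = s σ := by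
    intro σ
    rw [hb0]
    simp only
    rw [lam_sub, lam_sub, lam_smul, lam_one hp2, mul_zero, sub_zero, lam_delta, sub_zero,
      lam_act ⟨c σ, hc σ⟩, lam_delta, sum_delta, map_one, mul_one, zero_add]
  -- coboundaries
  have hcob : ∀ v : ZMod p → ℤ_[p], ∑ i, v i = 0 → (fun σ => act ρ s σ v - v) ∈ Sel ρ s := by
    intro v hv
    refine ⟨⟨?_, ?_⟩, ?_, ?_⟩
    · refine continuous_pi fun i => ?_
      simp only [Pi.sub_apply]
      refine Continuous.sub ?_ continuous_const
      unfold act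
      simp only [Pi.smul_apply, smul_eq_mul, sh]
      refine hρc.mul ?_
      exact (hsc.comp (fun u => v (i - u))).continuous
    · intro σ τ
      rw [act_act hρm hsm, act_sub]
      abel
    · intro σ
      simp only [Pi.sub_apply, Finset.sum_sub_distrib]
      rw [sum_act, hv, mul_zero, sub_zero]
    · intro l _ j
      exact ⟨1, v, one_ne_zero, hv, fun σ _ => by rw [one_smul]⟩
  have hb0sel : b0 ∈ Sel ρ s := by
    refine Sel_sat hb0s 1 ?_
    have e1 : (p : ℤ_[p]) ^ 1 • b0 = fun σ => act ρ s σ v0 - v0 := by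
      funext σ
      rw [Pi.smul_apply, pow_one]
      exact hpb σ
    rw [e1]
    exact hcob v0 hv0s
  -- some nonzero value
  have hodd : ∃ σ, lam (b0 σ) ≠ 0 := by
    by_contra hcon
    push Not at hcon
    have h1 : x ∈ F := mem_of_fix fun σ hσ => by
      have h2 := hcon ⟨σ, hσ⟩
      rw [hb0l] at h2
      exact (ex_eq_zero hζ hσ hx hx0).1 h2
    apply hd
    refine ⟨⟨x, h1⟩, ?_⟩
    apply Subtype.ext
    push_cast
    exact hx.symm
  -- saturation
  obtain ⟨b, m, hb1, hb2, hb3⟩ := hSAT p hp2 F.fixingSubgroup n t b0 g hb0s (fun j σ => (hg j).sum σ) (by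
    intro e a ha
    have h1 : (fun i => (p : ℤ_[p]) * a i) = (0 : Fin n → ℤ_[p]) := by
      refine hind (fun i => (p : ℤ_[p]) * a i) ⟨- conv e v0, ?_⟩
      intro σ
      have h2 := ha σ
      have h3 : conv e (act ρ s σ v0 - v0) + ∑ j, ((p : ℤ_[p]) * a j) • g j σ = 0 := by
        rw [← hpb, conv_smul]
        simp only [mul_smul]
        rw [← Finset.smul_sum, ← smul_add, h2, smul_zero]
      have h4 : act ρ s σ (- conv e v0) = - conv e (act ρ s σ v0) := by
        rw [← act_conv, ← zero_sub, act_sub, act_zero, zero_sub]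
      rw [h4]
      rw [conv_sub, add_comm, add_eq_zero_iff_eq_neg] at h3
      rw [h3]
      abel
    funext i
    exact (mul_eq_zero.1 (congrFun h1 i)).resolve_left p_ne) hodd hcount
  have hbsel : ∀ j, b j ∈ Sel ρ s := by
    intro j
    refine Sel_sat (hb2 j) m ?_
    obtain ⟨e, E, h⟩ := hb1 j
    have e1 : (p : ℤ_[p]) ^ m • b j = (fun σ => conv e (b0 σ)) + ∑ i, fun σ => conv (E i) (g i σ) := by
      funext σ
      rw [Pi.smul_apply, h σ, Pi.add_apply, Finset.sum_apply]
    rw [e1]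
    exact (Sel ρ s).add_mem (Sel_conv hb0sel e) ((Sel ρ s).sum_mem fun i _ => Sel_conv (hg i) (E i))
  -- homomorphisms
  have hlamact : ∀ (σ : F.fixingSubgroup) (m : ZMod p → ℤ_[p]), ∑ i, m i = 0 → lam (act ρ s σ m) = lam m := by
    intro σ m hm
    rw [lam_act ⟨c σ, hc σ⟩, hm, map_zero, mul_zero, add_zero]
  have hhom : ∀ f : F.fixingSubgroup → ZMod p → ℤ_[p], f ∈ Sel ρ s →
      IsLocallyConstant (fun σ => lam (f σ)) ∧ ∀ σ τ, lam (f (σ * τ)) = lam (f σ) + lam (f τ) := by
    intro f hf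
    have hf' : InSelV ρ s f := hf
    refine ⟨?_, ?_⟩
    · have h1 : ∀ i, IsLocallyConstant (fun σ => i * PadicInt.toZMod (f σ i)) := by
        intro i
        have h2 : IsLocallyConstant (fun y : ℤ_[p] => PadicInt.toZMod y) := by
          rw [IsLocallyConstant.iff_exists_open]
          intro y
          refine ⟨Metric.ball y 1, Metric.isOpen_ball, Metric.mem_ball_self one_pos, ?_⟩
          intro y' hy'
          rw [Metric.mem_ball, dist_eq_norm] at hy'
          have h3 : PadicInt.toZMod (y' - y) = 0 := by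
            rw [toZ_eq_zero]
            exact (PadicInt.norm_lt_one_iff_dvd (y' - y)).1 hy'
          rw [map_sub, sub_eq_zero] at h3
          exact h3
        exact (h2.comp (fun u => i * u)).comp_continuous ((continuous_apply i).comp hf'.coc.cont)
      have h2 : ∀ S : Finset (ZMod p), IsLocallyConstant (fun σ => ∑ i ∈ S, i * PadicInt.toZMod (f σ i)) := by
        intro S
        induction S using Finset.induction_on with
        | empty =>
          simp only [Finset.sum_empty]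
          exact IsLocallyConstant.const (0 : ZMod p)
        | insert a S ha ih =>
          simp only [Finset.sum_insert ha]
          exact (h1 a).add ih
      exact h2 univ
    · intro σ τ
      rw [hf'.coc.coc, lam_add, hlamact σ _ (hf'.sum τ)]
  -- the numbers
  have hfc : ∀ e : Fin t → ZMod p, ∃ (a : F) (y : Ω), a ≠ 0 ∧ y ^ p = (a : Ω) ∧ Cond p (AT p) d a ∧
      ∀ σ : F.fixingSubgroup, σ.1 y = (ζ : Ω) ^ (∑ j, e j * lam (b j σ)).val * y := by
    intro e
    have h1 : (∑ j, ((e j).val : ℤ_[p]) • b j) ∈ Sel ρ s :=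
      Submodule.sum_mem _ fun j _ => Submodule.smul_mem _ _ (hbsel j)
    have e1 : ∀ σ, lam ((∑ j, ((e j).val : ℤ_[p]) • b j) σ) = ∑ j, e j * lam (b j σ) := by
      intro σ
      rw [Finset.sum_apply, lam_sum]
      refine Finset.sum_congr rfl fun j _ => ?_
      rw [Pi.smul_apply, lam_smul, map_natCast, ZMod.natCast_zmod_val]
    obtain ⟨h2, h3⟩ := hhom _ h1
    obtain ⟨a, y, ha, hy, hay⟩ := hKUM p Ω F ζ hζ _ h2 h3
    refine ⟨a, y, ha, hy, hCON p hp2 Ω F ζ hζ r d x hr hd0 hx _ h1 a y ha hy hay, ?_⟩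
    intro σ
    rw [hay σ, e1]
  choose a y ha hy hcond hay using hfc
  have hy0 : ∀ e, y e ≠ 0 := by
    intro e h
    apply ha e
    have h1 := hy e
    rw [h, zero_pow hp.1.ne_zero] at h1
    exact_mod_cast h1.symm
  -- powers
  have hpow : ∀ (w : Ω) (A : F), w ^ p = (A : Ω) → IsPow p A → ∀ σ : F.fixingSubgroup, σ.1 w = w := by
    rintro w A hw ⟨u, rfl⟩ σ
    by_cases hu : (u : Ω) = 0
    · have h1 : w = 0 := by
        have h2 : w ^ p = 0 := by
          rw [hw]
          push_cast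
          rw [hu, zero_pow hp.1.ne_zero]
        exact pow_eq_zero_iff hp.1.ne_zero |>.1 h2
      rw [h1, map_zero]
    · have h1 : (w / u) ^ p = 1 := by
        rw [div_pow, hw]
        push_cast
        exact div_self (pow_ne_zero _ hu)
      obtain ⟨i, _, h2⟩ := (prim hζ).eq_pow_of_pow_eq_one h1
      have h3 : w = ((ζ ^ i * u : F) : Ω) := by
        push_cast
        rw [h2, div_mul_cancel₀ _ hu]
      rw [h3]
      exact fix_eq σ.2 _
  have hone : ∀ (u : ZMod p) (w : Ω), w ≠ 0 → (ζ : Ω) ^ u.val * w = w → u = 0 := by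
    intro u w hw h
    refine pow_val_inj (prim hζ) (t := 0) ?_
    rw [ZMod.val_zero, pow_zero]
    exact mul_right_cancel₀ hw (by rw [h, one_mul])
  have hxj : ∀ (j : ℕ) (σ : F.fixingSubgroup), σ.1 (x ^ j) = (ζ : Ω) ^ ((j : ZMod p) * s σ).val * x ^ j := by
    intro j σ
    rw [map_pow, ex_spec hζ σ.2 hx, mul_pow, pow_val_mul (prim hζ)]
  -- the two arguments
  have arg1 : ∀ (e : Fin t → ZMod p) (j : ℕ), IsPow p (a e * d ^ j) → e = 0 := by
    intro e j h
    have h1 : (y e * x ^ j) ^ p = ((a e * d ^ j : F) : Ω) := by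
      rw [mul_pow, hy, ← pow_mul, mul_comm j p, pow_mul, hx]
      push_cast
      rfl
    refine (hb3 (j : ZMod p) e fun σ => ?_).2
    have h2 := hpow _ _ h1 h σ
    rw [map_mul, hay, hxj] at h2
    rw [hb0l]
    refine hone _ _ (mul_ne_zero (hy0 e) (pow_ne_zero j hx0)) ?_
    rw [pow_val_add (prim hζ)]
    linear_combination h2
  have arg2 : ∀ (e e' : Fin t → ZMod p) (j : ℕ), IsPow p (a e / a e' * d ^ j) → e = e' := by
    intro e e' j h
    have h1 : (y e / y e' * x ^ j) ^ p = ((a e / a e' * d ^ j : F) : Ω) := by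
      rw [mul_pow, div_pow, hy, hy, ← pow_mul, mul_comm j p, pow_mul, hx]
      push_cast
      rfl
    rw [← sub_eq_zero]
    refine (hb3 (j : ZMod p) (e - e') fun σ => ?_).2
    have h2 := hpow _ _ h1 h σ
    rw [map_mul, map_div₀, hay, hay, hxj] at h2
    rw [hb0l]
    have e1 : ∑ k, (e - e') k * lam (b k σ) = (∑ k, e k * lam (b k σ)) - ∑ k, e' k * lam (b k σ) := by
      rw [← Finset.sum_sub_distrib]
      exact Finset.sum_congr rfl fun k _ => by rw [Pi.sub_apply, sub_mul]
    rw [e1]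
    set A := ∑ k, e k * lam (b k σ)
    set B := ∑ k, e' k * lam (b k σ)
    have h3 := pow_val_add (prim hζ) ((j : ZMod p) * s σ + (A - B)) B
    have e2 : (j : ZMod p) * s σ + (A - B) + B = (j : ZMod p) * s σ + A := by ring
    rw [e2, pow_val_add (prim hζ)] at h3
    have hB : (ζ : Ω) ^ B.val ≠ 0 := pow_ne_zero _ ((prim hζ).ne_zero hp.1.ne_zero)
    refine hone _ _ (mul_ne_zero (div_ne_zero (hy0 e) (hy0 e')) (pow_ne_zero j hx0)) ?_
    have hye' := hy0 e'
    field_simp at h2 ⊢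
    apply mul_left_cancel₀ hB
    linear_combination h2 - y e * h3
  -- the index
  have hcard : Fintype.card {e : Fin t → ZMod p // e ≠ 0} = p ^ t - 1 := by
    have h1 := Fintype.card_subtype_compl (fun e : Fin t → ZMod p => e = 0)
    rw [Fintype.card_subtype_eq] at h1
    rw [h1, Fintype.card_fun, ZMod.card, Fintype.card_fin]
  let E : Fin (p ^ t - 1) ≃ {e : Fin t → ZMod p // e ≠ 0} := (Fintype.equivFinOfCardEq hcard).symm
  refine ⟨fun k => a (E k).1, fun k => ⟨hcond _, fun j h => (E k).2 (arg1 _ j h)⟩, fun k k' hk j h => ?_⟩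
  exact hk (E.injective (Subtype.ext (arg2 _ _ j h)))

end Pool.Agent.Q123.SP
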