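import Pool.Agent.Q123.SP.Alg

/-!
# Project SP (helper283): elementary properties of the characters
-/

set_option autoImplicit false

namespace Pool.Agent.Q123.SP

open NumberField IsDedekindDomain Filter Topology Finset
open Pool.Agent.Q283.SP
open Pool.Agent.Q283.LS (Dec Inr)

variable {p : ℕ} [hp : Fact p.Prime]

section root

variable {K : Type} [Field K]

theorem pow_val_natCast {ζ : K} (hζ : IsPrimitiveRoot ζ p) (n : ℕ) : ζ ^ ((n : ZMod p)).val = ζ ^ n := by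
  rw [ZMod.val_natCast]
  exact (pow_mod_orderOf ζ n) ▸ (by rw [← hζ.eq_orderOf])

theorem pow_val_add {ζ : K} (hζ : IsPrimitiveRoot ζ p) (s t : ZMod p) :
    ζ ^ (s + t).val = ζ ^ s.val * ζ ^ t.val := by
  have h := pow_val_natCast hζ (s.val + t.val)
  rw [Nat.cast_add, ZMod.natCast_zmod_val, ZMod.natCast_zmod_val] at h
  rw [h, pow_add]

theorem pow_val_mul {ζ : K} (hζ : IsPrimitiveRoot ζ p) (s : ZMod p) (n : ℕ) :
    ζ ^ ((n : ZMod p) * s).val = (ζ ^ s.val) ^ n := by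
  have h := pow_val_natCast hζ (n * s.val)
  rw [Nat.cast_mul, ZMod.natCast_zmod_val] at h
  rw [h, mul_comm, pow_mul]

theorem pow_val_inj {ζ : K} (hζ : IsPrimitiveRoot ζ p) {s t : ZMod p} (h : ζ ^ s.val = ζ ^ t.val) : s = t :=
  ZMod.val_injective p (hζ.pow_inj (ZMod.val_lt s) (ZMod.val_lt t) h)

end root

variable {Ω : Type} [Field Ω] [CharZero Ω]

theorem chi_mul (σ τ : Ω ≃ₐ[ℚ] Ω) : chi p (σ * τ) = chi p σ * chi p τ := by
  unfold chi
  have h : ((σ * τ : Ω ≃ₐ[ℚ] Ω) : Ω ≃+* Ω) = (σ : Ω ≃+* Ω) * (τ : Ω ≃+* Ω) := rfl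
  rw [h, map_mul, Units.val_mul]

theorem chi_one : chi p (1 : Ω ≃ₐ[ℚ] Ω) = 1 := by
  unfold chi
  have h : ((1 : Ω ≃ₐ[ℚ] Ω) : Ω ≃+* Ω) = 1 := rfl
  rw [h, map_one, Units.val_one]

theorem chi_cont : Continuous (chi p : (Ω ≃ₐ[ℚ] Ω) → ℤ_[p]) := by
  have h := cyclotomicCharacter.continuous p ℚ Ω
  exact Units.continuous_val.comp h

theorem chi_spec [IsAlgClosed Ω] (σ : Ω ≃ₐ[ℚ] Ω) {n : ℕ} {z : Ω} (hz : z ^ p ^ n = 1) :
    σ z = z ^ ((PadicInt.toZModPow n (chi p σ)).val) :=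
  cyclotomicCharacter.spec (L := Ω) p (n := n) (σ : Ω ≃+* Ω) z hz

theorem toZModPow_eq {n : ℕ} {x y : ℤ_[p]} : PadicInt.toZModPow n x = PadicInt.toZModPow n y ↔
    (p : ℤ_[p]) ^ n ∣ x - y := by
  rw [← sub_eq_zero, ← map_sub, ← RingHom.mem_ker, PadicInt.ker_toZModPow, Ideal.mem_span_singleton]

theorem chi_dvd [IsAlgClosed Ω] {σ : Ω ≃ₐ[ℚ] Ω} {n : ℕ} {z : Ω} (hz : IsPrimitiveRoot z (p ^ n)) (h : σ z = z) :
    (p : ℤ_[p]) ^ n ∣ chi p σ - 1 := by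
  rcases Nat.eq_zero_or_pos n with rfl | hn
  · rw [pow_zero]
    exact one_dvd _
  rw [← toZModPow_eq, map_one]
  have h1 := chi_spec (p := p) σ hz.pow_eq_one
  rw [h] at h1
  have hne : NeZero (p ^ n) := ⟨(pow_pos hp.1.pos n).ne'⟩
  have h2 : z ^ 1 = z ^ ((PadicInt.toZModPow n (chi p σ)).val) := by rw [pow_one]; exact h1
  have h3 := hz.pow_inj (Nat.one_lt_pow hn.ne' hp.1.one_lt) (ZMod.val_lt _) h2
  rw [← ZMod.natCast_zmod_val (PadicInt.toZModPow n (chi p σ)), ← h3, Nat.cast_one]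

theorem chi_fix [IsAlgClosed Ω] {σ : Ω ≃ₐ[ℚ] Ω} {n : ℕ} {z : Ω} (hz : z ^ p ^ n = 1) (h : (p : ℤ_[p]) ^ n ∣ chi p σ - 1) :
    σ z = z := by
  rw [← toZModPow_eq, map_one] at h
  rw [chi_spec σ hz, h]
  rcases Nat.eq_zero_or_pos n with rfl | hn
  · rw [pow_zero, pow_one] at hz
    rw [hz, one_pow]
  · have h1 : 1 < p ^ n := Nat.one_lt_pow hn.ne' hp.1.one_lt
    have : Fact (1 < p ^ n) := ⟨h1⟩
    rw [ZMod.val_one, pow_one]

variable {F : IntermediateField ℚ Ω}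

theorem fix_eq {σ : Ω ≃ₐ[ℚ] Ω} (hσ : σ ∈ F.fixingSubgroup) (a : F) : σ (a : Ω) = a := by
  rw [IntermediateField.mem_fixingSubgroup_iff] at hσ
  exact hσ _ a.2

omit hp in
theorem prim {ζ : F} (hζ : IsPrimitiveRoot ζ p) : IsPrimitiveRoot (ζ : Ω) p :=
  hζ.map_of_injective (f := algebraMap F Ω) (algebraMap F Ω).injective

theorem chi_dvd_p [IsAlgClosed Ω] {ζ : F} (hζ : IsPrimitiveRoot ζ p) {σ : Ω ≃ₐ[ℚ] Ω} (hσ : σ ∈ F.fixingSubgroup) :
    (p : ℤ_[p]) ∣ chi p σ - 1 := by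
  have h := chi_dvd (p := p) (n := 1) (σ := σ) (z := (ζ : Ω)) (by rw [pow_one]; exact prim hζ) (fix_eq hσ ζ)
  rwa [pow_one] at h

theorem chi_dvd_pow [IsAlgClosed Ω] {ζ : F} (hζ : IsPrimitiveRoot ζ p) {σ : Ω ≃ₐ[ℚ] Ω} (hσ : σ ∈ F.fixingSubgroup) (r : ℕ) :
    (p : ℤ_[p]) ∣ chi p σ ^ r - 1 := by
  have h := sub_dvd_pow_sub_pow (chi p σ) 1 r
  rw [one_pow] at h
  exact (chi_dvd_p hζ hσ).trans h

/-- the Kummer cocycle -/
theorem exists_ex {ζ : F} (hζ : IsPrimitiveRoot ζ p) {σ : Ω ≃ₐ[ℚ] Ω} (hσ : σ ∈ F.fixingSubgroup) {d : F} {x : Ω}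
    (hx : x ^ p = (d : Ω)) : ∃ s : ZMod p, σ x = (ζ : Ω) ^ s.val * x := by
  by_cases hx0 : x = 0
  · exact ⟨0, by rw [hx0, map_zero, mul_zero]⟩
  have h1 : (σ x / x) ^ p = 1 := by
    rw [div_pow, ← map_pow, hx, fix_eq hσ, ← hx]
    exact div_self (pow_ne_zero _ hx0)
  obtain ⟨i, hi, h2⟩ := (prim hζ).eq_pow_of_pow_eq_one h1
  refine ⟨(i : ZMod p), ?_⟩
  rw [pow_val_natCast (prim hζ), h2, div_mul_cancel₀ _ hx0]

theorem ex_spec {ζ : F} (hζ : IsPrimitiveRoot ζ p) {σ : Ω ≃ₐ[ℚ] Ω} (hσ : σ ∈ F.fixingSubgroup) {d : F} {x : Ω}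
    (hx : x ^ p = (d : Ω)) : σ x = (ζ : Ω) ^ (ex (p := p) (ζ : Ω) x σ).val * x := by
  have h := exists_ex hζ hσ hx
  unfold ex
  rw [dif_pos h]
  exact h.choose_spec

theorem ex_unique {ζ : F} (hζ : IsPrimitiveRoot ζ p) {σ : Ω ≃ₐ[ℚ] Ω} (hσ : σ ∈ F.fixingSubgroup) {d : F} {x : Ω}
    (hx : x ^ p = (d : Ω)) (hx0 : x ≠ 0) {s : ZMod p} (h : σ x = (ζ : Ω) ^ s.val * x) : ex (p := p) (ζ : Ω) x σ = s := by
  have h1 := ex_spec hζ hσ hx
  rw [h] at h1
  exact (pow_val_inj (prim hζ) (mul_right_cancel₀ hx0 h1)).symm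

theorem ex_mul {ζ : F} (hζ : IsPrimitiveRoot ζ p) {σ τ : Ω ≃ₐ[ℚ] Ω} (hσ : σ ∈ F.fixingSubgroup)
    (hτ : τ ∈ F.fixingSubgroup) {d : F} {x : Ω} (hx : x ^ p = (d : Ω)) (hx0 : x ≠ 0) :
    ex (p := p) (ζ : Ω) x (σ * τ) = ex (p := p) (ζ : Ω) x σ + ex (p := p) (ζ : Ω) x τ := by
  refine ex_unique hζ (mul_mem hσ hτ) hx hx0 ?_
  rw [AlgEquiv.mul_apply, ex_spec hζ hτ hx, map_mul, map_pow, fix_eq hσ, ex_spec hζ hσ hx,
    pow_val_add (prim hζ)]
  ring

theorem ex_eq_zero {ζ : F} (hζ : IsPrimitiveRoot ζ p) {σ : Ω ≃ₐ[ℚ] Ω} (hσ : σ ∈ F.fixingSubgroup) {d : F} {x : Ω}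
    (hx : x ^ p = (d : Ω)) (hx0 : x ≠ 0) : ex (p := p) (ζ : Ω) x σ = 0 ↔ σ x = x := by
  constructor
  · intro h
    rw [ex_spec hζ hσ hx, h, ZMod.val_zero, pow_zero, one_mul]
  · intro h
    refine ex_unique hζ hσ hx hx0 ?_
    rw [h, ZMod.val_zero, pow_zero, one_mul]

theorem stab_open [Algebra.IsAlgebraic ℚ Ω] (x : Ω) : IsOpen {σ : Ω ≃ₐ[ℚ] Ω | σ x = x} := by
  have h2 : {σ : Ω ≃ₐ[ℚ] Ω | σ x = x} = ((IntermediateField.adjoin ℚ {x}).fixingSubgroup : Set (Ω ≃ₐ[ℚ] Ω)) := by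
    ext σ
    constructor
    · intro h
      rw [SetLike.mem_coe, IntermediateField.mem_fixingSubgroup_iff]
      intro w hw
      induction hw using IntermediateField.adjoin_induction with
      | mem w hw =>
        rw [Set.mem_singleton_iff] at hw
        rw [hw]
        exact h
      | algebraMap q => exact σ.commutes q
      | add a b _ _ ha hb => rw [map_add, ha, hb]
      | inv a _ ha => rw [map_inv₀, ha]
      | mul a b _ _ ha hb => rw [map_mul, ha, hb]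
    · intro h
      rw [SetLike.mem_coe, IntermediateField.mem_fixingSubgroup_iff] at h
      exact h x (IntermediateField.mem_adjoin_simple_self ℚ x)
  rw [h2]
  have : FiniteDimensional ℚ (IntermediateField.adjoin ℚ {x}) :=
    IntermediateField.adjoin.finiteDimensional (Algebra.IsIntegral.isIntegral x)
  exact IntermediateField.fixingSubgroup_isOpen _

theorem ex_locConst [Algebra.IsAlgebraic ℚ Ω] (ζ x : Ω) :
    IsLocallyConstant (fun σ : Ω ≃ₐ[ℚ] Ω => ex (p := p) ζ x σ) := by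
  rw [IsLocallyConstant.iff_exists_open]
  intro σ
  refine ⟨(fun τ => σ⁻¹ * τ) ⁻¹' {σ : Ω ≃ₐ[ℚ] Ω | σ x = x}, (stab_open x).preimage (continuous_const_mul _), ?_, ?_⟩
  · simp
  · intro τ hτ
    have h1 : τ x = σ x := by
      have h2 : (σ⁻¹ * τ) x = x := hτ
      rw [AlgEquiv.mul_apply] at h2
      have h3 := congrArg σ h2
      rwa [← AlgEquiv.mul_apply, mul_inv_cancel, AlgEquiv.one_apply] at h3
    let G : Ω → ZMod p := fun y => @dite (ZMod p) (∃ s : ZMod p, y = ζ ^ s.val * x) (Classical.propDecidable _)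
      (fun h => h.choose) (fun _ => 0)
    change G (τ x) = G (σ x)
    rw [h1]

theorem mem_of_fix [IsAlgClosed Ω] [Algebra.IsAlgebraic ℚ Ω] {y : Ω} (h : ∀ σ ∈ F.fixingSubgroup, σ y = y) :
    y ∈ F := by
  have : IsAlgClosure ℚ Ω := ⟨inferInstance, inferInstance⟩
  have : IsGalois ℚ Ω := IsAlgClosure.isGalois ℚ Ω
  rw [← InfiniteGalois.fixedField_fixingSubgroup F, IntermediateField.mem_fixedField_iff]
  exact h

/-! ### the action -/

section act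

variable {H : Subgroup (Ω ≃ₐ[ℚ] Ω)} {ρ : H → ℤ_[p]} {s : H → ZMod p}

theorem act_add (σ : H) (m m' : ZMod p → ℤ_[p]) : act ρ s σ (m + m') = act ρ s σ m + act ρ s σ m' := by
  unfold act
  rw [← smul_add]
  rfl

theorem act_smul (σ : H) (c : ℤ_[p]) (m : ZMod p → ℤ_[p]) : act ρ s σ (c • m) = c • act ρ s σ m := by
  unfold act
  rw [smul_comm]
  rfl

theorem act_zero (σ : H) : act ρ s σ (0 : ZMod p → ℤ_[p]) = 0 := by
  have h := act_smul (ρ := ρ) (s := s) σ 0 0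
  rwa [zero_smul, zero_smul] at h

theorem act_sub (σ : H) (m m' : ZMod p → ℤ_[p]) : act ρ s σ (m - m') = act ρ s σ m - act ρ s σ m' := by
  have h := act_add (ρ := ρ) (s := s) σ (m - m') m'
  rw [sub_add_cancel] at h
  rw [h, add_sub_cancel_right]

theorem act_conv (σ : H) (e m : ZMod p → ℤ_[p]) : act ρ s σ (conv e m) = conv e (act ρ s σ m) := by
  unfold act
  rw [conv_smul, conv_sh]

theorem act_act (hρ : ∀ σ τ, ρ (σ * τ) = ρ σ * ρ τ) (hs : ∀ σ τ, s (σ * τ) = s σ + s τ) (σ τ : H)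
    (m : ZMod p → ℤ_[p]) : act ρ s (σ * τ) m = act ρ s σ (act ρ s τ m) := by
  unfold act
  rw [hρ, hs, mul_smul]
  congr 1
  funext i
  simp only [sh, Pi.smul_apply]
  rw [sub_sub]

theorem sum_act (σ : H) (m : ZMod p → ℤ_[p]) : ∑ i, act ρ s σ m i = ρ σ * ∑ i, m i := by
  unfold act
  simp only [Pi.smul_apply, smul_eq_mul]
  rw [← Finset.mul_sum]
  congr 1
  exact sum_shift m _

theorem lam_act {σ : H} (hρ : (p : ℤ_[p]) ∣ ρ σ - 1) (m : ZMod p → ℤ_[p]) :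
    lam (act ρ s σ m) = lam m + s σ * PadicInt.toZMod (∑ i, m i) := by
  unfold act
  have h1 : PadicInt.toZMod (ρ σ) = 1 := by
    rw [← toZ_eq_zero, map_sub, map_one, sub_eq_zero] at hρ
    exact hρ
  rw [lam_smul, lam_sh, h1, one_mul]

/-- the module of the cocycles `InSelV` -/
def Sel (ρ : H → ℤ_[p]) (s : H → ZMod p) : Submodule ℤ_[p] (H → ZMod p → ℤ_[p]) where
  carrier := {f | InSelV ρ s f}
  zero_mem' := by
    refine ⟨⟨continuous_const, ?_⟩, ?_, ?_⟩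
    · intro σ τ
      rw [Pi.zero_apply, Pi.zero_apply, Pi.zero_apply, act_zero, add_zero]
    · intro σ
      simp
    · intro l _ j
      refine ⟨1, 0, one_ne_zero, by simp, fun σ _ => ?_⟩
      rw [act_zero, sub_zero, Pi.zero_apply, smul_zero]
  add_mem' := by
    intro f g hf hg
    refine ⟨⟨hf.coc.cont.add hg.coc.cont, ?_⟩, ?_, ?_⟩
    · intro σ τ
      rw [Pi.add_apply, Pi.add_apply, Pi.add_apply, hf.coc.coc, hg.coc.coc, act_add]
      abel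
    · intro σ
      simp only [Pi.add_apply, Finset.sum_add_distrib]
      rw [hf.sum, hg.sum, add_zero]
    · intro l _ j
      obtain ⟨n, v, hn, hv, h⟩ := hf.tor l j
      obtain ⟨n', v', hn', hv', h'⟩ := hg.tor l j
      refine ⟨n * n', n' • v + n • v', mul_ne_zero hn hn', ?_, ?_⟩
      · simp only [Pi.add_apply, Pi.smul_apply, smul_eq_mul, Finset.sum_add_distrib, ← Finset.mul_sum, hv, hv',
          mul_zero, add_zero]
      · intro σ hσ
        rw [Pi.add_apply, smul_add, act_add, act_smul, act_smul]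
        have h1 : (n * n') • f σ = n' • (act ρ s σ v - v) := by rw [← h σ hσ, smul_smul, mul_comm]
        have h2 : (n * n') • g σ = n • (act ρ s σ v' - v') := by rw [← h' σ hσ, smul_smul]
        rw [h1, h2, smul_sub, smul_sub]
        abel
  smul_mem' := by
    intro c f hf
    refine ⟨⟨hf.coc.cont.const_smul c, ?_⟩, ?_, ?_⟩
    · intro σ τ
      rw [Pi.smul_apply, Pi.smul_apply, Pi.smul_apply, hf.coc.coc, act_smul, smul_add]
    · intro σ
      simp only [Pi.smul_apply, smul_eq_mul, ← Finset.mul_sum]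
      rw [hf.sum, mul_zero]
    · intro l _ j
      obtain ⟨n, v, hn, hv, h⟩ := hf.tor l j
      refine ⟨n, c • v, hn, ?_, ?_⟩
      · simp only [Pi.smul_apply, smul_eq_mul, ← Finset.mul_sum, hv, mul_zero]
      · intro σ hσ
        rw [Pi.smul_apply, smul_comm, h σ hσ, act_smul, smul_sub]

theorem Sel_conv {f : H → ZMod p → ℤ_[p]} (hf : f ∈ Sel ρ s) (e : ZMod p → ℤ_[p]) :
    (fun σ => conv e (f σ)) ∈ Sel ρ s := by
  have hf' : InSelV ρ s f := hf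
  refine ⟨⟨?_, ?_⟩, ?_, ?_⟩
  · refine continuous_pi fun i => ?_
    simp only [conv_apply]
    refine continuous_finsetSum _ fun k _ => ?_
    exact continuous_const.mul ((continuous_apply (i - k)).comp hf'.coc.cont)
  · intro σ τ
    rw [hf'.coc.coc, conv_add, act_conv]
  · intro σ
    rw [sum_conv, hf'.sum, mul_zero]
  · intro l _ j
    obtain ⟨n, v, hn, hv, h⟩ := hf'.tor l j
    refine ⟨n, conv e v, hn, ?_, ?_⟩
    · rw [sum_conv, hv, mul_zero]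
    · intro σ hσ
      rw [← conv_smul, h σ hσ, conv_sub, act_conv]

theorem cont_of_pow {X : Type} [TopologicalSpace X] {w : X → ZMod p → ℤ_[p]} (m : ℕ)
    (h : Continuous fun x => (p : ℤ_[p]) ^ m • w x) : Continuous w := by
  have h1 : Topology.IsClosedEmbedding (fun x : ℤ_[p] => (p : ℤ_[p]) ^ m * x) := by
    refine Continuous.isClosedEmbedding (by fun_prop) ?_
    intro a b hab
    exact mul_left_cancel₀ (pow_ne_zero m p_ne) hab
  refine continuous_pi fun i => ?_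
  exact h1.isEmbedding.continuous_iff.2 ((continuous_apply i).comp h)

theorem Sel_sat {f : H → ZMod p → ℤ_[p]} (hs : ∀ σ, ∑ i, f σ i = 0) (m : ℕ)
    (h : (p : ℤ_[p]) ^ m • f ∈ Sel ρ s) : f ∈ Sel ρ s := by
  have h' : InSelV ρ s ((p : ℤ_[p]) ^ m • f) := h
  have h0 : ((p : ℤ_[p]) ^ m) ≠ 0 := pow_ne_zero m p_ne
  refine ⟨⟨cont_of_pow m h'.coc.cont, ?_⟩, hs, ?_⟩
  · intro σ τ
    have h1 := h'.coc.coc σ τ
    rw [Pi.smul_apply, Pi.smul_apply, Pi.smul_apply, act_smul, ← smul_add] at h1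
    exact smul_right_injective _ h0 h1
  · intro l _ j
    obtain ⟨n, v, hn, hv, h1⟩ := h'.tor l j
    refine ⟨n * (p : ℤ_[p]) ^ m, v, mul_ne_zero hn h0, hv, ?_⟩
    intro σ hσ
    rw [← h1 σ hσ, Pi.smul_apply, smul_smul]

end act

end Pool.Agent.Q123.SP
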