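import Pool.Agent.Q123.SP.Alg

/-!
# Project SP (helper283), job SATV: saturation of a lattice of functions
-/

set_option autoImplicit false

namespace Pool.Agent.Q123.SP

open Finset Pool.Agent.Q283.SP Filter Topology

variable {p : ℕ} [hp : Fact p.Prime] {X : Type}

theorem delta_conv (m : ZMod p → ℤ_[p]) : conv (Pi.single 0 1) m = m := by
  funext i
  rw [conv_apply, Finset.sum_eq_single 0]
  · simp
  · intro k _ hk
    rw [Pi.single_eq_of_ne hk, zero_mul]
  · intro h
    exact absurd (mem_univ _) h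

theorem T_eq_conv (m : ZMod p → ℤ_[p]) : T m = conv (T (Pi.single 0 1)) m := by
  rw [T_conv, delta_conv]

/-- pointwise `T` -/
noncomputable def TX : (X → ZMod p → ℤ_[p]) →ₗ[ℤ_[p]] (X → ZMod p → ℤ_[p]) where
  toFun w := fun x => T (w x)
  map_add' w w' := by
    funext x
    simp only [Pi.add_apply]
    exact map_add _ _ _
  map_smul' c w := by
    funext x
    exact map_smul (T : (ZMod p → ℤ_[p]) →ₗ[ℤ_[p]] _) c (w x)

theorem TX_pow (k : ℕ) (w : X → ZMod p → ℤ_[p]) (x : X) :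
    ((TX : Module.End ℤ_[p] (X → ZMod p → ℤ_[p])) ^ k) w x = ((T : Module.End ℤ_[p] (ZMod p → ℤ_[p])) ^ k) (w x) := by
  induction k generalizing w with
  | zero => rfl
  | succ k ih =>
    rw [pow_succ, pow_succ, Module.End.mul_apply, Module.End.mul_apply, ih]
    rfl

section lattice

variable {n : ℕ} (b0 : X → ZMod p → ℤ_[p]) (c : Fin n → X → ZMod p → ℤ_[p])

/-- the lattice -/
def U : Submodule ℤ_[p] (X → ZMod p → ℤ_[p]) where
  carrier := {w | ∃ (e : ZMod p → ℤ_[p]) (E : Fin n → ZMod p → ℤ_[p]), ∀ x,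
    w x = conv e (b0 x) + ∑ i, conv (E i) (c i x)}
  zero_mem' := ⟨0, fun _ => 0, fun x => by simp [zero_conv]⟩
  add_mem' := by
    rintro w w' ⟨e, E, h⟩ ⟨e', E', h'⟩
    refine ⟨e + e', fun i => E i + E' i, fun x => ?_⟩
    rw [Pi.add_apply, h, h', add_conv]
    simp only [add_conv, Finset.sum_add_distrib]
    abel
  smul_mem' := by
    rintro a w ⟨e, E, h⟩
    refine ⟨a • e, fun i => a • E i, fun x => ?_⟩
    rw [Pi.smul_apply, h, smul_conv, smul_add]
    simp only [smul_conv, Finset.smul_sum]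

theorem U_conv {w : X → ZMod p → ℤ_[p]} (hw : w ∈ U b0 c) (g : ZMod p → ℤ_[p]) :
    (fun x => conv g (w x)) ∈ U b0 c := by
  obtain ⟨e, E, h⟩ := hw
  refine ⟨conv g e, fun i => conv g (E i), fun x => ?_⟩
  simp only
  rw [h, conv_add, conv_conv]
  congr 1
  have h1 : conv g (∑ i, conv (E i) (c i x)) = ∑ i, conv g (conv (E i) (c i x)) := map_sum (convL g) _ _
  rw [h1]
  exact Finset.sum_congr rfl fun i _ => conv_conv _ _ _

/-- its saturation in the functions of sum `0` -/
def W : Submodule ℤ_[p] (X → ZMod p → ℤ_[p]) where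
  carrier := {w | (∀ x, ∑ i, w x i = 0) ∧ ∃ m : ℕ, (p : ℤ_[p]) ^ m • w ∈ U b0 c}
  zero_mem' := ⟨fun x => by simp, 0, by simp⟩
  add_mem' := by
    rintro w w' ⟨h1, m, h2⟩ ⟨h1', m', h2'⟩
    refine ⟨fun x => ?_, m + m', ?_⟩
    · simp only [Pi.add_apply, Finset.sum_add_distrib, h1, h1', add_zero]
    · rw [smul_add]
      refine (U b0 c).add_mem ?_ ?_
      · rw [pow_add, mul_comm, mul_smul]
        exact (U b0 c).smul_mem _ h2
      · rw [pow_add, mul_smul]
        exact (U b0 c).smul_mem _ h2'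
  smul_mem' := by
    rintro a w ⟨h1, m, h2⟩
    refine ⟨fun x => ?_, m, ?_⟩
    · simp only [Pi.smul_apply, smul_eq_mul, ← Finset.mul_sum, h1, mul_zero]
    · rw [smul_comm]
      exact (U b0 c).smul_mem _ h2

variable {b0 c}

theorem W_conv {w : X → ZMod p → ℤ_[p]} (hw : w ∈ W b0 c) (g : ZMod p → ℤ_[p]) :
    (fun x => conv g (w x)) ∈ W b0 c := by
  obtain ⟨h1, m, h2⟩ := hw
  refine ⟨fun x => ?_, m, ?_⟩
  · rw [sum_conv, h1, mul_zero]
  · have h3 := U_conv b0 c h2 g
    have h4 : ((p : ℤ_[p]) ^ m • fun x => conv g (w x)) = fun x => conv g (((p : ℤ_[p]) ^ m • w) x) := by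
      funext x
      rw [Pi.smul_apply, Pi.smul_apply, conv_smul]
    rw [h4]
    exact h3

theorem W_T {w : X → ZMod p → ℤ_[p]} (hw : w ∈ W b0 c) : TX w ∈ W b0 c := by
  have h1 := W_conv hw (T (Pi.single 0 1))
  have h2 : (fun x => conv (T (Pi.single 0 1)) (w x)) = TX w := by
    funext x
    exact (T_eq_conv _).symm
  rwa [h2] at h1

theorem W_Tpow {w : X → ZMod p → ℤ_[p]} (hw : w ∈ W b0 c) (k : ℕ) :
    ((TX : Module.End ℤ_[p] (X → ZMod p → ℤ_[p])) ^ k) w ∈ W b0 c := by
  induction k with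
  | zero => exact hw
  | succ k ih =>
    rw [pow_succ', Module.End.mul_apply]
    exact W_T ih

theorem W_div_p {w : X → ZMod p → ℤ_[p]} (hs : ∀ x, ∑ i, w x i = 0) (hw : (p : ℤ_[p]) • w ∈ W b0 c) :
    w ∈ W b0 c := by
  obtain ⟨_, m, h2⟩ := hw
  exact ⟨hs, m + 1, by rwa [pow_succ, mul_smul]⟩

theorem W_div_T {w : X → ZMod p → ℤ_[p]} (hs : ∀ x, ∑ i, w x i = 0) (hw : TX w ∈ W b0 c) : w ∈ W b0 c := by
  refine W_div_p hs ?_
  have h1 := W_conv hw gT
  have h2 : (fun x => conv gT ((TX w) x)) = (p : ℤ_[p]) • w := by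
    funext x
    exact gT_conv (hs x)
  rwa [h2] at h1

theorem b0_mem (hs : ∀ x, ∑ i, b0 x i = 0) : b0 ∈ W b0 c := by
  refine ⟨hs, 0, ⟨Pi.single 0 1, fun _ => 0, fun x => ?_⟩⟩
  rw [delta_conv]
  simp [zero_conv]

theorem c_mem (hs : ∀ j x, ∑ i, c j x i = 0) (j : Fin n) : c j ∈ W b0 c := by
  refine ⟨hs j, 0, ⟨0, fun i => if i = j then Pi.single 0 1 else 0, fun x => ?_⟩⟩
  rw [zero_conv, zero_add, Finset.sum_eq_single j]
  · beta_reduce
    rw [if_pos rfl, delta_conv]
    simp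
  · intro i _ hij
    beta_reduce
    rw [if_neg hij, zero_conv]
  · intro h
    exact absurd (mem_univ _) h

theorem sh_mem {w : X → ZMod p → ℤ_[p]} (hw : w ∈ W b0 c) (s : ZMod p) : (fun x => sh s (w x)) ∈ W b0 c := by
  have h1 := W_conv hw (sh s (Pi.single 0 1))
  have h2 : (fun x => conv (sh s (Pi.single 0 1)) (w x)) = fun x => sh s (w x) := by
    funext x
    rw [conv_comm, conv_sh, conv_comm, delta_conv]
  rwa [h2] at h1

section key

variable {k : ℕ} {f : Fin k → X → ZMod p → ℤ_[p]}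

theorem step1 (hf : ∀ i, f i ∈ W b0 c)
    (hsp : ∀ w ∈ W b0 c, ∃ a : Fin k → ZMod p, ∀ x, lam (w x) = ∑ i, a i * lam (f i x))
    {w : X → ZMod p → ℤ_[p]} (hw : w ∈ W b0 c) :
    ∃ (a : Fin k → ℤ_[p]) (w' : X → ZMod p → ℤ_[p]), w' ∈ W b0 c ∧ w = ∑ i, a i • f i + TX w' := by
  obtain ⟨a, ha⟩ := hsp w hw
  set u : X → ZMod p → ℤ_[p] := w - ∑ i, ((a i).val : ℤ_[p]) • f i with hu
  have huW : u ∈ W b0 c := (W b0 c).sub_mem hw ((W b0 c).sum_mem fun i _ => (W b0 c).smul_mem _ (hf i))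
  have hul : ∀ x, lam (u x) = 0 := by
    intro x
    have h1 : u x = w x - ∑ i, ((a i).val : ℤ_[p]) • f i x := by
      rw [hu, Pi.sub_apply, Finset.sum_apply]
      rfl
    rw [h1, lam_sub, lam_sum, ha, sub_eq_zero]
    refine Finset.sum_congr rfl fun i _ => ?_
    rw [lam_smul, map_natCast, ZMod.natCast_zmod_val]
  choose w' hw1 hw2 using fun x => T_of_lam (huW.1 x) (hul x)
  refine ⟨fun i => ((a i).val : ℤ_[p]), w', ?_, ?_⟩
  · refine W_div_T hw1 ?_
    have h1 : TX w' = u := funext hw2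
    rw [h1]
    exact huW
  · have h1 : TX w' = u := funext hw2
    rw [h1, hu, add_sub_cancel]

/-- the span -/
noncomputable def N (f : Fin k → X → ZMod p → ℤ_[p]) (h : ℕ) : Submodule ℤ_[p] (X → ZMod p → ℤ_[p]) :=
  Submodule.span ℤ_[p] (Set.range fun q : Fin k × Fin h =>
    ((TX : Module.End ℤ_[p] (X → ZMod p → ℤ_[p])) ^ (q.2 : ℕ)) (f q.1))

theorem step2 (hf : ∀ i, f i ∈ W b0 c)
    (hsp : ∀ w ∈ W b0 c, ∃ a : Fin k → ZMod p, ∀ x, lam (w x) = ∑ i, a i * lam (f i x)) (h : ℕ)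
    {w : X → ZMod p → ℤ_[p]} (hw : w ∈ W b0 c) :
    ∃ v ∈ N f h, ∃ w' ∈ W b0 c, w = v + ((TX : Module.End ℤ_[p] (X → ZMod p → ℤ_[p])) ^ h) w' := by
  induction h generalizing w with
  | zero => exact ⟨0, Submodule.zero_mem _, w, hw, by simp⟩
  | succ h ih =>
    obtain ⟨v, hv, w', hw', e1⟩ := ih hw
    obtain ⟨a, w'', hw'', e2⟩ := step1 hf hsp hw'
    refine ⟨v + ∑ i, a i • ((TX : Module.End ℤ_[p] (X → ZMod p → ℤ_[p])) ^ h) (f i), ?_, w'', hw'', ?_⟩
    · refine Submodule.add_mem _ ?_ ?_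
      · refine Submodule.span_mono ?_ hv
        rintro _ ⟨⟨i, j⟩, rfl⟩
        exact ⟨(i, j.castSucc), rfl⟩
      · refine Submodule.sum_mem _ fun i _ => Submodule.smul_mem _ _ (Submodule.subset_span ⟨(i, Fin.last h), rfl⟩)
    · rw [e1, e2, map_add, map_sum]
      simp only [map_smul]
      rw [pow_succ, Module.End.mul_apply, add_assoc]

theorem step3 (hf : ∀ i, f i ∈ W b0 c)
    (hsp : ∀ w ∈ W b0 c, ∃ a : Fin k → ZMod p, ∀ x, lam (w x) = ∑ i, a i * lam (f i x))
    {w : X → ZMod p → ℤ_[p]} (hw : w ∈ W b0 c) :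
    ∃ v ∈ N f (p - 1), ∃ w' ∈ W b0 c, w = v + (p : ℤ_[p]) • w' := by
  obtain ⟨v, hv, w', hw', e1⟩ := step2 hf hsp (p - 1) hw
  choose w'' h1 h2 using fun x => T_div_p (hw'.1 x)
  have h3 : ((TX : Module.End ℤ_[p] (X → ZMod p → ℤ_[p])) ^ (p - 1)) w' = (p : ℤ_[p]) • w'' := by
    funext x
    rw [TX_pow]
    exact h2 x
  refine ⟨v, hv, w'', W_div_p h1 ?_, by rw [e1, h3]⟩
  rw [← h3]
  exact W_Tpow hw' _

theorem step4 (hf : ∀ i, f i ∈ W b0 c)
    (hsp : ∀ w ∈ W b0 c, ∃ a : Fin k → ZMod p, ∀ x, lam (w x) = ∑ i, a i * lam (f i x)) (M : ℕ)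
    {w : X → ZMod p → ℤ_[p]} (hw : w ∈ W b0 c) :
    ∃ v ∈ N f (p - 1), ∃ w' ∈ W b0 c, w = v + (p : ℤ_[p]) ^ M • w' := by
  induction M with
  | zero => exact ⟨0, Submodule.zero_mem _, w, hw, by simp⟩
  | succ M ih =>
    obtain ⟨v, hv, w', hw', e1⟩ := ih
    obtain ⟨v', hv', w'', hw'', e2⟩ := step3 hf hsp hw'
    refine ⟨v + (p : ℤ_[p]) ^ M • v', Submodule.add_mem _ hv (Submodule.smul_mem _ _ hv'), w'', hw'', ?_⟩
    rw [e1, e2, smul_add, smul_smul, pow_succ, add_assoc]

theorem key (hf : ∀ i, f i ∈ W b0 c)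
    (hsp : ∀ w ∈ W b0 c, ∃ a : Fin k → ZMod p, ∀ x, lam (w x) = ∑ i, a i * lam (f i x)) :
    W b0 c ≤ N f (p - 1) := by
  intro w hw
  have hcl : IsClosed (N f (p - 1) : Set (X → ZMod p → ℤ_[p])) := by
    have h1 : (N f (p - 1) : Set (X → ZMod p → ℤ_[p])) = Set.range (fun a : Fin k × Fin (p - 1) → ℤ_[p] =>
        ∑ q, a q • ((TX : Module.End ℤ_[p] (X → ZMod p → ℤ_[p])) ^ (q.2 : ℕ)) (f q.1)) := by
      ext v
      unfold N
      rw [SetLike.mem_coe, Submodule.mem_span_range_iff_exists_fun]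
      rfl
    rw [h1]
    refine (isCompact_range ?_).isClosed
    refine continuous_finsetSum _ fun q _ => ?_
    refine continuous_pi fun x => continuous_pi fun i => ?_
    simp only [Pi.smul_apply, smul_eq_mul]
    exact (continuous_apply q).mul continuous_const
  choose v hv w' hw' e using fun M => step4 hf hsp M hw
  refine hcl.mem_of_tendsto (f := v) (b := atTop) ?_ (Eventually.of_forall hv)
  rw [tendsto_pi_nhds]
  intro x
  rw [tendsto_pi_nhds]
  intro i
  rw [tendsto_iff_norm_sub_tendsto_zero]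
  refine squeeze_zero (fun _ => norm_nonneg _) (g := fun M : ℕ => ((p : ℝ)⁻¹) ^ M) (fun M => ?_) ?_
  · have h1 := congrFun (congrFun (e M) x) i
    simp only [Pi.add_apply, Pi.smul_apply, smul_eq_mul] at h1
    rw [h1, sub_add_cancel_left, norm_neg, norm_mul, norm_pow, PadicInt.norm_p]
    exact mul_le_of_le_one_right (by positivity) (PadicInt.norm_le_one _)
  · exact tendsto_pow_atTop_nhds_zero_of_lt_one (by positivity)
      (inv_lt_one_of_one_lt₀ (by exact_mod_cast hp.1.one_lt))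

end key

end lattice

theorem card_ne_zero : Fintype.card {k : ZMod p // k ≠ 0} = p - 1 := by
  rw [Fintype.card_subtype_compl, Fintype.card_subtype_eq, ZMod.card]

theorem satv : S_SATV := by
  classical
  intro p hp _ X n t b0 c hb0 hc hind hlam hcount
  -- the independent elements
  have hli : LinearIndependent ℤ_[p] (Sum.elim c (fun k : {k : ZMod p // k ≠ 0} => fun x => sh k.1 (b0 x))) := by
    rw [Fintype.linearIndependent_iff]
    intro a ha
    rw [Fintype.sum_sum_type] at ha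
    simp only [Sum.elim_inl, Sum.elim_inr] at ha
    set e : ZMod p → ℤ_[p] := fun k => if h : k ≠ 0 then a (Sum.inr ⟨k, h⟩) else 0 with he
    have hsum : ∀ x, ∑ k : {k : ZMod p // k ≠ 0}, a (Sum.inr k) • sh k.1 (b0 x) = conv e (b0 x) := by
      intro x
      rw [conv_eq_sum]
      have h1 : ∑ k : ZMod p, e k • sh k (b0 x) = ∑ k ∈ univ.filter (fun k : ZMod p => k ≠ 0), e k • sh k (b0 x) := by
        rw [Finset.sum_filter]
        refine Finset.sum_congr rfl fun k _ => ?_
        by_cases hk : k ≠ 0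
        · rw [if_pos hk]
        · rw [if_neg hk, he]
          simp only [hk, dite_false, zero_smul]
      rw [h1, Finset.sum_subtype (univ.filter (fun k : ZMod p => k ≠ 0)) (p := fun k => k ≠ 0) (by simp)]
      refine Finset.sum_congr rfl fun k _ => ?_
      rw [he]
      simp only [k.2, ne_eq, not_false_eq_true, dite_true]
    have h1 : ∀ x, conv e (b0 x) + ∑ j, a (Sum.inl j) • c j x = 0 := by
      intro x
      have h2 := congrFun ha x
      rw [Pi.add_apply, Finset.sum_apply, Finset.sum_apply] at h2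
      simp only [Pi.smul_apply] at h2
      have h3 := hsum x
      rw [← h3, add_comm]
      exact h2
    have h2 := hind e (fun j => a (Sum.inl j)) h1
    have h3 : ∀ x, conv e (b0 x) = 0 := by
      intro x
      have h4 := h1 x
      have h5 : ∑ j, a (Sum.inl j) • c j x = 0 := by
        refine Finset.sum_eq_zero fun j _ => ?_
        rw [congrFun h2 j]
        simp
      rwa [h5, add_zero] at h4
    obtain ⟨x, hx⟩ := hlam
    have h4 := const_of_T (conv_eq_zero (hb0 x) hx (h3 x))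
    have h5 : ∀ k, e k = 0 := by
      intro k
      rw [h4 k, he]
      simp
    rintro (j | k)
    · exact congrFun h2 j
    · have h6 := h5 k.1
      rw [he] at h6
      simpa only [k.2, ne_eq, not_false_eq_true, dite_true] using h6
  have hmemW : ∀ q, Sum.elim c (fun k : {k : ZMod p // k ≠ 0} => fun x => sh k.1 (b0 x)) q ∈ W b0 c := by
    rintro (j | k)
    · exact c_mem hc j
    · exact sh_mem (b0_mem hb0) k.1
  -- the induction
  have main : ∀ k : ℕ, k ≤ t → ∃ f : Fin (k + 1) → X → ZMod p → ℤ_[p], f 0 = b0 ∧ (∀ i, f i ∈ W b0 c) ∧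
      LinearIndependent (ZMod p) (fun i : Fin (k + 1) => fun x => lam (f i x)) := by
    intro k
    induction k with
    | zero =>
      intro _
      refine ⟨fun _ => b0, rfl, fun _ => b0_mem hb0, ?_⟩
      rw [Fintype.linearIndependent_iff]
      intro g hg i
      obtain ⟨x, hx⟩ := hlam
      have h1 := congrFun hg x
      rw [Fin.sum_univ_succ, Fin.sum_univ_zero, add_zero, Pi.smul_apply, smul_eq_mul, Pi.zero_apply] at h1
      have hi : i = 0 := Fin.ext (by omega)
      rw [hi]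
      exact (mul_eq_zero.1 h1).resolve_right hx
    | succ k ih =>
      intro hk
      obtain ⟨f, hf0, hf, hfl⟩ := ih (by omega)
      by_cases hsp : ∀ w ∈ W b0 c, ∃ a : Fin (k + 1) → ZMod p, ∀ x, lam (w x) = ∑ i, a i * lam (f i x)
      · exfalso
        have h1 := key hf hsp
        have h2 : Set.range (Sum.elim c (fun k : {k : ZMod p // k ≠ 0} => fun x => sh k.1 (b0 x))) ≤
            Submodule.span ℤ_[p] (Set.range fun q : Fin (k + 1) × Fin (p - 1) =>
              ((TX : Module.End ℤ_[p] (X → ZMod p → ℤ_[p])) ^ (q.2 : ℕ)) (f q.1)) := by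
          rintro _ ⟨q, rfl⟩
          exact h1 (hmemW q)
        have h3 := linearIndependent_le_span' _ hli _ h2
        have h4 : Fintype.card (Fin n ⊕ {k : ZMod p // k ≠ 0}) = n + (p - 1) := by
          rw [Fintype.card_sum, Fintype.card_fin, card_ne_zero]
        have h5 : Fintype.card (Set.range fun q : Fin (k + 1) × Fin (p - 1) =>
              ((TX : Module.End ℤ_[p] (X → ZMod p → ℤ_[p])) ^ (q.2 : ℕ)) (f q.1)) ≤ (k + 1) * (p - 1) := by
          refine (Fintype.card_range_le _).trans ?_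
          rw [Fintype.card_prod, Fintype.card_fin, Fintype.card_fin]
        have h6 : (k + 1) * (p - 1) ≤ (p - 1) * t := by
          rw [mul_comm]
          exact Nat.mul_le_mul_left _ hk
        have h7 : Fintype.card (Fin n ⊕ {k : ZMod p // k ≠ 0}) ≤ (k + 1) * (p - 1) := by
          refine le_trans ?_ h5
          rw [Cardinal.mk_fintype] at h3
          exact_mod_cast h3
        omega
      · push Not at hsp
        obtain ⟨w, hw, hwn⟩ := hsp
        refine ⟨Fin.snoc (α := fun _ => X → ZMod p → ℤ_[p]) f w, ?_, ?_, ?_⟩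
        · rw [← Fin.castSucc_zero, Fin.snoc_castSucc]
          exact hf0
        · intro i
          refine Fin.lastCases ?_ (fun j => ?_) i
          · rw [Fin.snoc_last]
            exact hw
          · rw [Fin.snoc_castSucc]
            exact hf j
        · have h1 : (fun i : Fin (k + 1 + 1) => fun x => lam (Fin.snoc (α := fun _ => X → ZMod p → ℤ_[p]) f w i x)) =
              Fin.snoc (α := fun _ => X → ZMod p) (fun i => fun x => lam (f i x)) (fun x => lam (w x)) := by
            funext i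
            refine Fin.lastCases ?_ (fun j => ?_) i
            · rw [Fin.snoc_last, Fin.snoc_last]
            · rw [Fin.snoc_castSucc, Fin.snoc_castSucc]
          rw [h1, linearIndependent_finSnoc]
          refine ⟨hfl, ?_⟩
          intro hmem
          rw [Submodule.mem_span_range_iff_exists_fun] at hmem
          obtain ⟨a, ha⟩ := hmem
          obtain ⟨x, hx⟩ := hwn a
          apply hx
          have h2 := congrFun ha x
          rw [Finset.sum_apply] at h2
          exact h2.symm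
  obtain ⟨f, hf0, hf, hfl⟩ := main t le_rfl
  have hex : ∀ j : Fin t, ∃ m : ℕ, (p : ℤ_[p]) ^ m • f j.succ ∈ U b0 c := fun j => (hf j.succ).2
  choose m hm using hex
  refine ⟨fun j => f j.succ, ∑ j, m j, ?_, fun j x => (hf j.succ).1 x, ?_⟩
  · intro j
    have h1 : (p : ℤ_[p]) ^ (∑ j, m j) • f j.succ ∈ U b0 c := by
      have h2 : m j ≤ ∑ j, m j := Finset.single_le_sum (fun _ _ => Nat.zero_le _) (mem_univ j)
      obtain ⟨r, hr⟩ := Nat.exists_eq_add_of_le h2
      rw [hr, pow_add, mul_comm, mul_smul]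
      exact (U b0 c).smul_mem _ (hm j)
    obtain ⟨e, E, h2⟩ := h1
    exact ⟨e, E, h2⟩
  · intro e0 e h
    rw [Fintype.linearIndependent_iff] at hfl
    have h1 := hfl (Fin.cons e0 e) (by
      funext x
      rw [Fin.sum_univ_succ]
      simp only [Fin.cons_zero, Fin.cons_succ, Pi.add_apply, Finset.sum_apply, Pi.smul_apply, smul_eq_mul, hf0]
      exact h x)
    refine ⟨h1 0, ?_⟩
    funext j
    exact h1 j.succ

end Pool.Agent.Q123.SP
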