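import Pool.Agent.Q123.SP.CRI
import Pool.Agent.Q123.SP.SATV

/-!
# Project SP (helper283), job CON: the local conditions, algebra
-/

set_option autoImplicit false

namespace Pool.Agent.Q123.SP

open Finset Pool.Agent.Q283.SP

variable {p : ℕ} [hp : Fact p.Prime]

theorem supp_T (k : ℕ) (hk : k < p) : (((T : Module.End ℤ_[p] (ZMod p → ℤ_[p])) ^ k) (Pi.single 0 1)) 0 = 1 ∧
    ∀ i : ZMod p, k < i.val → (((T : Module.End ℤ_[p] (ZMod p → ℤ_[p])) ^ k) (Pi.single 0 1)) i = 0 := by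
  induction k with
  | zero =>
    refine ⟨by simp, fun i hi => ?_⟩
    have hi0 : i ≠ 0 := by
      rintro rfl
      rw [ZMod.val_zero] at hi
      exact lt_irrefl _ hi
    rw [pow_zero, Module.End.one_apply, Pi.single_eq_of_ne hi0]
  | succ k ih =>
    obtain ⟨h1, h2⟩ := ih (by omega)
    rw [pow_succ', Module.End.mul_apply]
    refine ⟨?_, fun i hi => ?_⟩
    · rw [T_apply, h1, h2, sub_zero]
      rw [zero_sub, ZMod.neg_val, if_neg one_ne_zero, ZMod.val_one p]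
      omega
    · have h3 : (i - 1).val = i.val - 1 := by
        rw [ZMod.val_sub]
        · rw [ZMod.val_one p]
        · rw [ZMod.val_one p]
          omega
      rw [T_apply, h2 i (by omega), h2 (i - 1) (by omega), sub_zero]

/-- the unit of the group ring with `T ^ (p - 1) = p q` on the elements of sum `0` -/
theorem exists_q : ∃ q : ZMod p → ℤ_[p], ∑ i, q i = -1 ∧ ∀ m : ZMod p → ℤ_[p], ∑ i, m i = 0 →
    ((T : Module.End ℤ_[p] _) ^ (p - 1)) m = (p : ℤ_[p]) • conv q m := by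
  have h2 := hp.1.two_le
  set D := ((T : Module.End ℤ_[p] (ZMod p → ℤ_[p])) ^ (p - 1)) (Pi.single 0 1) with hD
  have h0 : D 0 = 1 := (supp_T (p - 1) (by omega)).1
  have h1 : ∀ i, (p : ℤ_[p]) ∣ D i - 1 := by
    intro i
    rw [← toZ_eq_zero, map_sub, map_one]
    have h3 : T (fun i => PadicInt.toZMod (D i)) = (0 : ZMod p → ZMod p) := by
      have h4 := T_pow_p (fun i => PadicInt.toZMod ((Pi.single 0 1 : ZMod p → ℤ_[p]) i))
      have h5 : (T : Module.End (ZMod p) (ZMod p → ZMod p)) ^ p = T * T ^ (p - 1) := by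
        rw [← pow_succ']
        congr 1
        omega
      rw [h5, Module.End.mul_apply] at h4
      rw [← h4, hD, Tpow_toZ]
    have h6 := const_of_T h3 i
    rw [h6, h0, map_one, sub_self]
  choose q hq using h1
  have hDq : D = (fun _ => 1) + (p : ℤ_[p]) • q := by
    funext i
    rw [Pi.add_apply, Pi.smul_apply, smul_eq_mul, ← hq i]
    ring
  refine ⟨q, ?_, ?_⟩
  · have h3 : ∑ i, D i = 0 := by
      rw [hD]
      have h4 : p - 1 = (p - 2) + 1 := by omega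
      rw [h4, pow_succ', Module.End.mul_apply]
      exact sum_T _
    have h5 : (p : ℤ_[p]) * (1 + ∑ i, q i) = 0 := by
      rw [← h3]
      have h6 : ∀ i, D i = 1 + p * q i := fun i => by
        have := congrFun hDq i
        rw [this]
        simp
      rw [Finset.sum_congr rfl fun i _ => h6 i, Finset.sum_add_distrib, ← Finset.mul_sum]
      simp [ZMod.card]
      ring
    have h6 := (mul_eq_zero.1 h5).resolve_left p_ne
    linear_combination h6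
  · intro m hm
    have h3 : ((T : Module.End ℤ_[p] _) ^ (p - 1)) m = conv D m := by
      rw [hD, Tpow_conv, delta_conv]
    have h4 : conv (fun _ => 1) m = 0 := by
      funext i
      rw [conv_apply]
      simp only [one_mul]
      rw [Pi.zero_apply, ← hm]
      exact (Equiv.subLeft i).sum_comp m
    rw [h3, hDq, add_conv, h4, zero_add, smul_conv]

theorem exists_Q (K : ℕ) : ∃ Q : ZMod p → ℤ_[p], ∑ i, Q i = (-1) ^ K ∧ ∀ m : ZMod p → ℤ_[p], ∑ i, m i = 0 →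
    ((T : Module.End ℤ_[p] _) ^ ((p - 1) * K)) m = (p : ℤ_[p]) ^ K • conv Q m := by
  obtain ⟨q, hq1, hq2⟩ := exists_q (p := p)
  induction K with
  | zero =>
    refine ⟨Pi.single 0 1, ?_, ?_⟩
    · rw [sum_delta, pow_zero]
    · intro m _
      rw [delta_conv]
      simp
  | succ K ih =>
    obtain ⟨Q, h1, h2⟩ := ih
    refine ⟨conv q Q, ?_, ?_⟩
    · rw [sum_conv, hq1, h1, pow_succ]
      ring
    · intro m hm
      rw [Nat.mul_succ, add_comm, pow_add, Module.End.mul_apply, h2 m hm, map_smul,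
        hq2 (conv Q m) (by rw [sum_conv, hm, mul_zero]), smul_smul, conv_conv, ← pow_succ]

theorem sh_T (s : ZMod p) (m : ZMod p → ℤ_[p]) : sh s (T m) = T (sh s m) := by
  funext i
  rw [T_apply]
  unfold sh
  rw [T_apply]
  congr 2
  ring

theorem sh_Tpow (s : ZMod p) (k : ℕ) (m : ZMod p → ℤ_[p]) :
    sh s (((T : Module.End ℤ_[p] _) ^ k) m) = ((T : Module.End ℤ_[p] _) ^ k) (sh s m) := by
  induction k with
  | zero => rfl
  | succ k ih => rw [pow_succ', Module.End.mul_apply, sh_T, ih, Module.End.mul_apply]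

theorem sum_sh (s : ZMod p) {m : ZMod p → ℤ_[p]} (h : ∑ i, m i = 0) : ∑ i, sh s m i = 0 := by
  rw [← h]
  exact sum_shift m s

/-- (v) -/
theorem sh_sub (s : ZMod p) {u : ZMod p → ℤ_[p]} (hu : ∑ i, u i = 0) :
    ∃ w : ZMod p → ℤ_[p], ∑ i, w i = 0 ∧ sh s u - u = T w ∧ lam w = - (s * lam u) := by
  have key : ∀ k : ℕ, ∃ w : ZMod p → ℤ_[p], ∑ i, w i = 0 ∧ sh (k : ZMod p) u - u = T w ∧
      lam w = - ((k : ZMod p) * lam u) := by
    intro k
    induction k with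
    | zero =>
      refine ⟨0, by simp, ?_, ?_⟩
      · rw [map_zero]
        funext i
        simp [sh]
      · rw [lam_zero]
        simp
    | succ k ih =>
      obtain ⟨w, h1, h2, h3⟩ := ih
      refine ⟨w - sh (k : ZMod p) u, ?_, ?_, ?_⟩
      · simp only [Pi.sub_apply, Finset.sum_sub_distrib]
        rw [h1, sum_sh _ hu, sub_zero]
      · rw [map_sub, ← h2]
        funext i
        simp only [Pi.sub_apply, T_apply, sh]
        push_cast
        have e1 : i - ((k : ZMod p) + 1) = i - 1 - k := by ring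
        rw [e1]
        ring
      · rw [lam_sub, h3, lam_sh, hu, map_zero, mul_zero, add_zero]
        push_cast
        ring
  have h := key s.val
  rwa [ZMod.natCast_zmod_val] at h

theorem sum_val_zero (hp2 : p ≠ 2) : ∑ i : ZMod p, i = 0 := by
  have h := lam_one (p := p) hp2
  unfold lam at h
  simpa using h

/-- `p` is divisible by `T ^ 2` -/
theorem p_div_TT (hp2 : p ≠ 2) {u : ZMod p → ℤ_[p]} (hu : ∑ i, u i = 0) :
    ∃ g : ZMod p → ℤ_[p], ∑ i, g i = 0 ∧ (p : ℤ_[p]) • u = T (T g) := by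
  have h1 : lam (conv gT u) = 0 := by
    rw [lam_conv _ hu]
    have h2 : PadicInt.toZMod (∑ i, (gT : ZMod p → ℤ_[p]) i) = 0 := by
      rw [map_sum]
      unfold gT
      simp only [map_neg, map_natCast, ZMod.natCast_zmod_val]
      rw [Finset.sum_neg_distrib, sum_val_zero hp2, neg_zero]
    rw [h2, zero_mul]
  obtain ⟨g, hg, hT⟩ := T_of_lam (by rw [sum_conv, hu, mul_zero]) h1
  exact ⟨g, hg, by rw [hT, ← conv_T, gT_conv hu]⟩

section cases

variable {H : Type} {P : H → Prop} {ρ : H → ℤ_[p]} {s : H → ZMod p} {f : H → ZMod p → ℤ_[p]}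

theorem sum_cob {ρ : ℤ_[p]} {s : ZMod p} {u : ZMod p → ℤ_[p]} (hu : ∑ i, u i = 0) :
    ∑ i, (ρ • sh s u - u) i = 0 := by
  simp only [Pi.sub_apply, Pi.smul_apply, smul_eq_mul, Finset.sum_sub_distrib, ← Finset.mul_sum]
  rw [sum_sh s hu, hu]
  ring

theorem toZ_one_of_dvd {x : ℤ_[p]} (h : (p : ℤ_[p]) ∣ x - 1) : PadicInt.toZMod x = 1 := by
  rw [← toZ_eq_zero, map_sub, map_one, sub_eq_zero] at h
  exact h

theorem cases3 (hp2 : p ≠ 2) (hf : ∀ σ, ∑ i, f σ i = 0) {n : ℤ_[p]} {v0 : ZMod p → ℤ_[p]} (hn : n ≠ 0)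
    (hv : ∑ i, v0 i = 0) (h : ∀ σ, P σ → n • f σ = ρ σ • sh (s σ) v0 - v0)
    (hρ : ∀ σ, P σ → (p : ℤ_[p]) ∣ ρ σ - 1) (hne : ∃ σ, P σ ∧ ρ σ ≠ 1) :
    (∃ c : ZMod p, ∀ σ, P σ → lam (f σ) = c * s σ) ∨ ((∀ σ, P σ → s σ = 0) ∧
      ∃ (k1 : ℕ) (c : ZMod p), (∃ σ, P σ ∧ ¬ (p : ℤ_[p]) ^ (k1 + 1) ∣ ρ σ - 1) ∧
        ∀ σ, P σ → ∃ κ : ℤ_[p], ρ σ - 1 = (p : ℤ_[p]) ^ k1 * κ ∧ lam (f σ) = c * PadicInt.toZMod κ) := by
  by_cases hv0 : v0 = 0
  · refine Or.inl ⟨0, fun σ hσ => ?_⟩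
    have h1 := h σ hσ
    rw [hv0] at h1
    have h2 : sh (s σ) (0 : ZMod p → ℤ_[p]) = 0 := rfl
    rw [h2, smul_zero, sub_zero] at h1
    have h3 : f σ = 0 := (smul_eq_zero.1 h1).resolve_left hn
    rw [h3, lam_zero, zero_mul]
  obtain ⟨h', u, hu, hlu, rfl⟩ := exists_unit_part hv hv0
  -- the unit part of `n`
  obtain ⟨k, n', hn', rfl⟩ : ∃ (k : ℕ) (n' : ℤ_[p]ˣ), True ∧ n = (n' : ℤ_[p]) * (p : ℤ_[p]) ^ k :=
    ⟨n.valuation, PadicInt.unitCoeff hn, trivial, PadicInt.unitCoeff_spec hn⟩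
  obtain ⟨Q, hQ1, hQ2⟩ := exists_Q (p := p) k
  set u' : ZMod p → ℤ_[p] := ((n'⁻¹ : ℤ_[p]ˣ) : ℤ_[p]) • conv Q u with hu'
  have hu's : ∑ i, u' i = 0 := by
    rw [hu']
    simp only [Pi.smul_apply, smul_eq_mul, ← Finset.mul_sum]
    rw [sum_conv, hu, mul_zero, mul_zero]
  have hu'l : lam u' ≠ 0 := by
    rw [hu', lam_smul, lam_conv _ hu, hQ1, map_pow, map_neg, map_one]
    refine mul_ne_zero ?_ (mul_ne_zero (pow_ne_zero _ (neg_ne_zero.2 one_ne_zero)) hlu)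
    exact ((n'⁻¹).isUnit.map (PadicInt.toZMod (p := p))).ne_zero
  have eq1 : ∀ σ, P σ → ((T : Module.End ℤ_[p] _) ^ ((p - 1) * k)) (f σ) =
      ((T : Module.End ℤ_[p] _) ^ h') (ρ σ • sh (s σ) u' - u') := by
    intro σ hσ
    have h1 := congrArg (fun m => ((n'⁻¹ : ℤ_[p]ˣ) : ℤ_[p]) • conv Q m) (h σ hσ)
    rw [conv_smul, smul_smul, mul_smul, mul_smul, ← smul_assoc ((n'⁻¹ : ℤ_[p]ˣ) : ℤ_[p]) (n' : ℤ_[p]), smul_eq_mul,
      Units.inv_mul, one_smul, ← hQ2 _ (hf σ)] at h1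
    rw [h1, conv_sub, conv_smul, conv_sh]
    have h2 : conv Q (((T : Module.End ℤ_[p] _) ^ h') u) = ((T : Module.End ℤ_[p] _) ^ h') (conv Q u) := by
      rw [conv_comm, Tpow_conv, conv_comm]
    rw [h2, sh_Tpow, ← map_smul, ← map_sub, ← map_smul]
    congr 1
    rw [hu', smul_sub, smul_comm]
    rfl
  by_cases hh : (p - 1) * k ≤ h'
  · refine Or.inl ⟨0, fun σ hσ => ?_⟩
    obtain ⟨e, rfl⟩ := Nat.exists_eq_add_of_le hh
    have h1 := eq1 σ hσ
    rw [pow_add, Module.End.mul_apply] at h1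
    have h2 := Tpow_inj (hf σ) (sum_Tpow (sum_cob hu's) e) _ h1
    rw [h2, map_sub, map_smul, ← sh_Tpow, lam_sub, lam_smul, lam_sh, sum_Tpow hu's, toZ_one_of_dvd (hρ σ hσ),
      map_zero]
    ring
  push Not at hh
  obtain ⟨e, he⟩ := Nat.exists_eq_add_of_le hh.le
  have he1 : 1 ≤ e := by omega
  have eq2 : ∀ σ, P σ → ((T : Module.End ℤ_[p] _) ^ e) (f σ) = ρ σ • sh (s σ) u' - u' := by
    intro σ hσ
    have h1 := eq1 σ hσ
    rw [he, pow_add, Module.End.mul_apply] at h1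
    exact Tpow_inj (sum_Tpow (hf σ) e) (sum_cob hu's) _ h1
  obtain ⟨g, hg, hpg⟩ := p_div_TT hp2 hu's
  have eq3 : ∀ σ, P σ → ∃ w : ZMod p → ℤ_[p], ((T : Module.End ℤ_[p] _) ^ (e - 1)) (f σ) = w ∧
      lam w = - (s σ * lam u') := by
    intro σ hσ
    obtain ⟨w, hw1, hw2, hw3⟩ := sh_sub (s σ) hu's
    obtain ⟨c, hc⟩ := hρ σ hσ
    refine ⟨ρ σ • w + c • T g, ?_, ?_⟩
    · refine T_inj' (sum_Tpow (hf σ) _) ?_ ?_
      · simp only [Pi.add_apply, Pi.smul_apply, smul_eq_mul, Finset.sum_add_distrib, ← Finset.mul_sum]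
        rw [hw1, sum_T]
        ring
      · have h1 : T (((T : Module.End ℤ_[p] _) ^ (e - 1)) (f σ)) = ((T : Module.End ℤ_[p] _) ^ e) (f σ) := by
          rw [← Module.End.mul_apply, ← pow_succ']
          congr 2
          omega
        rw [h1, eq2 σ hσ, map_add, map_smul, map_smul, ← hw2, ← hpg]
        have h2 : u' + (c • (p : ℤ_[p]) • u') = ρ σ • u' := by
          rw [smul_smul, mul_comm, ← hc, sub_smul, one_smul]
          abel
        rw [smul_sub, ← h2]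
        abel
    · rw [lam_add, lam_smul, lam_smul, toZ_one_of_dvd (hρ σ hσ), hw3, lam_T, hg, map_zero]
      ring
  rcases Nat.eq_or_lt_of_le he1 with h1 | h1
  · -- `e = 1`
    refine Or.inl ⟨- lam u', fun σ hσ => ?_⟩
    obtain ⟨w, hw, hl⟩ := eq3 σ hσ
    rw [← h1, Nat.sub_self, pow_zero, Module.End.one_apply] at hw
    rw [hw, hl]
    ring
  -- `e ≥ 2`
  have hs0 : ∀ σ, P σ → s σ = 0 := by
    intro σ hσ
    obtain ⟨w, hw, hl⟩ := eq3 σ hσ
    have h2 : e - 1 = (e - 2) + 1 := by omega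
    rw [h2, pow_succ', Module.End.mul_apply] at hw
    rw [← hw, lam_T, sum_Tpow (hf σ), map_zero, neg_zero] at hl
    exact (mul_eq_zero.1 (neg_eq_zero.1 hl.symm)).resolve_right hu'l
  have eq4 : ∀ σ, P σ → ((T : Module.End ℤ_[p] _) ^ e) (f σ) = (ρ σ - 1) • u' := by
    intro σ hσ
    rw [eq2 σ hσ, hs0 σ hσ, sub_smul, one_smul]
    congr 2
    funext i
    simp [sh]
  -- the number `k1`
  have hex : ∃ k1 : ℕ, ∃ σ, P σ ∧ ¬ (p : ℤ_[p]) ^ (k1 + 1) ∣ ρ σ - 1 := by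
    obtain ⟨σ, hσ, hσ1⟩ := hne
    have hσ2 : ρ σ - 1 ≠ 0 := sub_ne_zero.2 hσ1
    refine ⟨(ρ σ - 1).valuation, σ, hσ, ?_⟩
    intro hdvd
    have h2 := PadicInt.mem_span_pow_iff_le_valuation (ρ σ - 1) hσ2 ((ρ σ - 1).valuation + 1)
    rw [Ideal.mem_span_singleton] at h2
    have h3 := h2.1 hdvd
    omega
  classical
  obtain ⟨k1, hk1, hmin⟩ : ∃ k1 : ℕ, (∃ σ, P σ ∧ ¬ (p : ℤ_[p]) ^ (k1 + 1) ∣ ρ σ - 1) ∧
      ∀ σ, P σ → (p : ℤ_[p]) ^ k1 ∣ ρ σ - 1 := by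
    refine ⟨Nat.find hex, Nat.find_spec hex, fun σ hσ => ?_⟩
    rcases Nat.eq_zero_or_pos (Nat.find hex) with h2 | h2
    · rw [h2, pow_zero]
      exact one_dvd _
    · have h3 := Nat.find_min hex (m := Nat.find hex - 1) (by omega)
      push Not at h3
      have h4 := h3 σ hσ
      rwa [Nat.sub_add_cancel h2] at h4
  obtain ⟨R, hR1, hR2⟩ := exists_Q (p := p) k1
  have hRl : ∀ σ, lam (conv R (f σ)) = (-1) ^ k1 * lam (f σ) := by
    intro σ
    rw [lam_conv _ (hf σ), hR1, map_pow, map_neg, map_one]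
  have hRs : ∀ σ, ∑ i, conv R (f σ) i = 0 := fun σ => by rw [sum_conv, hf, mul_zero]
  have eq5 : ∀ σ, P σ → ∀ κ, ρ σ - 1 = (p : ℤ_[p]) ^ k1 * κ → ((T : Module.End ℤ_[p] _) ^ e) (conv R (f σ)) =
      ((T : Module.End ℤ_[p] _) ^ ((p - 1) * k1)) (κ • u') := by
    intro σ hσ κ hκ
    have h2 : ((T : Module.End ℤ_[p] _) ^ e) (conv R (f σ)) = conv R (((T : Module.End ℤ_[p] _) ^ e) (f σ)) := by
      rw [conv_comm R, ← Tpow_conv, conv_comm]
    rw [h2, eq4 σ hσ, hκ, conv_smul, map_smul, hR2 _ hu's, smul_smul, mul_comm]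
  rcases lt_trichotomy e ((p - 1) * k1) with h2 | h2 | h2
  · -- `e < (p - 1) k1`
    refine Or.inl ⟨0, fun σ hσ => ?_⟩
    obtain ⟨κ, hκ⟩ := hmin σ hσ
    have h3 := eq5 σ hσ κ hκ
    obtain ⟨e', he'⟩ := Nat.exists_eq_add_of_lt h2
    rw [he', add_assoc, pow_add, Module.End.mul_apply] at h3
    have hκs : ∑ i, (κ • u') i = 0 := by
      simp only [Pi.smul_apply, smul_eq_mul, ← Finset.mul_sum]
      rw [hu's, mul_zero]
    have h4 := Tpow_inj (hRs σ) (sum_Tpow hκs _) _ h3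
    have h5 := hRl σ
    rw [h4, pow_succ', Module.End.mul_apply, lam_T, sum_Tpow hκs, map_zero, neg_zero] at h5
    rw [zero_mul]
    exact (mul_eq_zero.1 h5.symm).resolve_left (pow_ne_zero _ (neg_ne_zero.2 one_ne_zero))
  · refine Or.inr ⟨hs0, k1, (-1) ^ k1 * lam u', hk1, fun σ hσ => ?_⟩
    obtain ⟨κ, hκ⟩ := hmin σ hσ
    refine ⟨κ, hκ, ?_⟩
    have h3 := eq5 σ hσ κ hκ
    rw [← h2] at h3
    have hκs : ∑ i, (κ • u') i = 0 := by
      simp only [Pi.smul_apply, smul_eq_mul, ← Finset.mul_sum]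
      rw [hu's, mul_zero]
    have h4 := Tpow_inj (hRs σ) hκs _ h3
    have h5 := hRl σ
    rw [h4, lam_smul] at h5
    have h6 : ((-1 : ZMod p) ^ k1) * (-1) ^ k1 = 1 := by
      rw [← mul_pow]
      simp
    calc lam (f σ) = ((-1 : ZMod p) ^ k1 * (-1) ^ k1) * lam (f σ) := by rw [h6, one_mul]
      _ = (-1 : ZMod p) ^ k1 * (PadicInt.toZMod κ * lam u') := by rw [h5]; ring
      _ = _ := by ring
  · -- `e > (p - 1) k1`
    exfalso
    obtain ⟨σ, hσ, hnd⟩ := hk1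
    obtain ⟨κ, hκ⟩ := hmin σ hσ
    have h3 := eq5 σ hσ κ hκ
    obtain ⟨e', he'⟩ := Nat.exists_eq_add_of_lt h2
    rw [he', add_assoc, pow_add, Module.End.mul_apply] at h3
    have hκs : ∑ i, (κ • u') i = 0 := by
      simp only [Pi.smul_apply, smul_eq_mul, ← Finset.mul_sum]
      rw [hu's, mul_zero]
    have h4 := Tpow_inj (sum_Tpow (hRs σ) _) hκs _ h3
    have h5 : lam (κ • u') = 0 := by
      rw [← h4, pow_succ', Module.End.mul_apply, lam_T, sum_Tpow (hRs σ), map_zero, neg_zero]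
    rw [lam_smul] at h5
    have h6 := (mul_eq_zero.1 h5).resolve_right hu'l
    rw [toZ_eq_zero] at h6
    apply hnd
    rw [hκ, pow_succ]
    exact mul_dvd_mul_left _ h6

end cases

/-- the powers of `1 + p ^ a θ` -/
theorem lte {x : ℤ_[p]} (hp2 : p ≠ 2) {a : ℕ} (ha : 1 ≤ a) {θ : ℤ_[p]} (hx : x = 1 + (p : ℤ_[p]) ^ a * θ) (b r : ℕ) :
    (p : ℤ_[p]) ^ (a + b + 1) ∣ x ^ (p ^ b * r) - 1 - (p : ℤ_[p]) ^ (a + b) * (r * θ) := by
  have hodd : Odd p := hp.1.odd_of_ne_two hp2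
  -- the `p`-th power
  have step : ∀ (c : ℕ) (y : ℤ_[p]) (t : ℤ_[p]), 1 ≤ c → y = 1 + (p : ℤ_[p]) ^ c * t →
      ∃ t' : ℤ_[p], y ^ p = 1 + (p : ℤ_[p]) ^ (c + 1) * t' ∧ (p : ℤ_[p]) ∣ t' - t := by
    intro c y t hc hy
    obtain ⟨c', rfl⟩ := Nat.exists_eq_add_of_le hc
    have h1 := odd_sq_dvd_geom_sum₂_sub (R := ℤ_[p]) (a := 1) (b := (p : ℤ_[p]) ^ c' * t) hodd
    simp only [one_pow, mul_one] at h1
    obtain ⟨w, hw⟩ := h1
    have hy' : y = 1 + (p : ℤ_[p]) * ((p : ℤ_[p]) ^ c' * t) := by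
      rw [hy, add_comm 1 c', pow_succ]
      ring
    have h2 := geom_sum_mul y p
    rw [hy'] at h2 ⊢
    refine ⟨t + p * w * t, ?_, ⟨w * t, by ring⟩⟩
    have h3 : ∑ i ∈ range p, (1 + (p : ℤ_[p]) * ((p : ℤ_[p]) ^ c' * t)) ^ i = p + (p : ℤ_[p]) ^ 2 * w := by
      linear_combination hw
    rw [h3] at h2
    have h4 : (p : ℤ_[p]) ^ (1 + c' + 1) = (p : ℤ_[p]) ^ c' * p ^ 2 := by
      rw [← pow_add]
      congr 1
      omega
    rw [h4]
    linear_combination -h2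
  have key : ∀ b : ℕ, ∃ t' : ℤ_[p], x ^ p ^ b = 1 + (p : ℤ_[p]) ^ (a + b) * t' ∧ (p : ℤ_[p]) ∣ t' - θ := by
    intro b
    induction b with
    | zero => exact ⟨θ, by rw [pow_zero, pow_one, add_zero, hx], by simp⟩
    | succ b ih =>
      obtain ⟨t', h1, h2⟩ := ih
      obtain ⟨t'', h3, h4⟩ := step (a + b) _ t' (by omega) h1
      refine ⟨t'', ?_, ?_⟩
      · rw [pow_succ, pow_mul, h3, add_assoc]
      · have := dvd_add h4 h2
        rwa [sub_add_sub_cancel] at this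
  obtain ⟨t', h1, h2⟩ := key b
  rw [pow_mul, h1]
  -- the `r`-th power
  have h3 : ∀ r : ℕ, (p : ℤ_[p]) ^ (a + b + 1) ∣ (1 + (p : ℤ_[p]) ^ (a + b) * t') ^ r - 1 -
      (p : ℤ_[p]) ^ (a + b) * (r * t') := by
    intro r
    induction r with
    | zero => simp
    | succ r ih =>
      obtain ⟨w, hw⟩ := ih
      have h4 : (p : ℤ_[p]) ^ (a + b + 1) ∣ (p : ℤ_[p]) ^ (a + b) * p ^ (a + b) := by
        rw [← pow_add]
        exact pow_dvd_pow _ (by omega)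
      obtain ⟨w', hw'⟩ := h4
      refine ⟨w * (1 + (p : ℤ_[p]) ^ (a + b) * t') + w' * r * t' ^ 2, ?_⟩
      rw [pow_succ]
      push_cast
      linear_combination (1 + (p : ℤ_[p]) ^ (a + b) * t') * hw + r * t' ^ 2 * hw'
  obtain ⟨w, hw⟩ := h3 r
  obtain ⟨w', hw'⟩ := h2
  refine ⟨w + r * w', ?_⟩
  rw [pow_succ] at hw ⊢
  linear_combination hw + (p : ℤ_[p]) ^ (a + b) * r * hw'

end Pool.Agent.Q123.SP
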