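import Pool.Agent.Q123.SP.ConA

/-!
# Project SP (helper283), job CON: the local conditions
-/

set_option autoImplicit false

namespace Pool.Agent.Q123.SP

open NumberField IsDedekindDomain Filter Topology Finset
open Pool.Agent.Q283.SP
open Pool.Agent.Q283.LS (Dec Inr)
open Pool.Agent.Q7.LK (Dp vl Lpw IsPow Cond AT Many S_BAS S_CPL)

theorem pow_val_natCast' {K : Type} [Field K] {z : K} {N : ℕ} (hz : IsPrimitiveRoot z N) (n : ℕ) :
    z ^ ((n : ZMod N)).val = z ^ n := by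
  rw [ZMod.val_natCast]
  exact (pow_mod_orderOf z n) ▸ (by rw [← hz.eq_orderOf])

theorem local_cases (hNT : S_NT) {p : ℕ} [hp : Fact p.Prime] (hp2 : p ≠ 2) {Ω : Type} [Field Ω] [CharZero Ω]
    [IsAlgClosed Ω] [Algebra.IsAlgebraic ℚ Ω] {F : IntermediateField ℚ Ω} [NumberField F] {ζ : F}
    (hζ : IsPrimitiveRoot ζ p) {r : ℕ} {d : F} {x : Ω} (hr : 1 ≤ r) (hd : d ≠ 0) (hx : x ^ p = (d : Ω))
    {f : F.fixingSubgroup → ZMod p → ℤ_[p]}
    (hf : InSelV (fun σ : F.fixingSubgroup => chi p σ.1 ^ r) (fun σ => ex (ζ : Ω) x σ.1) f)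
    {a : F} {y : Ω} (hy : y ^ p = (a : Ω))
    (hfy : ∀ σ : F.fixingSubgroup, σ.1 y = (ζ : Ω) ^ (lam (f σ)).val * y) (l : ℕ) [Fact l.Prime]
    (j : Ω →+* PadicAlgCl l) :
    (∃ i : ℕ, ∀ σ ∈ F.fixingSubgroup, Dec j σ → σ (y * x ^ i) = y * x ^ i) ∨
    ((∀ σ ∈ F.fixingSubgroup, Dec j σ → σ x = x) ∧ ∃ (m : ℕ) (Y z : Ω), Y ^ p = (a : Ω) * z ∧ z ^ p ^ m = 1 ∧
      ∀ σ ∈ F.fixingSubgroup, Dec j σ → σ Y = Y ∧ σ z = z) := by
  classical
  have hx0 : x ≠ 0 := by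
    rintro rfl
    apply hd
    have h1 : (d : Ω) = 0 := by rw [← hx, zero_pow hp.1.ne_zero]
    exact_mod_cast h1
  have hζ' := prim hζ
  obtain ⟨σn, hσn, hσn1, hσn2⟩ := hNT p Ω F l j r hr
  obtain ⟨n, v0, hn, hv, h⟩ := hf.tor l j
  rcases cases3 (P := fun σ : F.fixingSubgroup => Dec j σ.1) (ρ := fun σ : F.fixingSubgroup => chi p σ.1 ^ r)
    (s := fun σ : F.fixingSubgroup => ex (ζ : Ω) x σ.1) hp2 hf.sum hn hv h
    (fun σ _ => chi_dvd_pow hζ σ.2 r) ⟨⟨σn, hσn⟩, hσn1, hσn2⟩ with ⟨c, hc⟩ | ⟨hs, k1, c, hk1, hκ⟩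
  · left
    refine ⟨(-c).val, fun σ hσ hσD => ?_⟩
    have h1 := hfy ⟨σ, hσ⟩
    have h2 := hc ⟨σ, hσ⟩ hσD
    simp only at h1 h2
    rw [map_mul, map_pow, h1, ex_spec hζ hσ hx, mul_pow, ← pow_val_mul hζ', h2]
    have h3 := pow_val_add hζ' (c * ex (p := p) (ζ : Ω) x σ) (((-c).val : ZMod p) * ex (p := p) (ζ : Ω) x σ)
    have h4 : c * ex (p := p) (ζ : Ω) x σ + ((-c).val : ZMod p) * ex (p := p) (ζ : Ω) x σ = 0 := by
      rw [ZMod.natCast_zmod_val]
      ring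
    rw [h4, ZMod.val_zero, pow_zero] at h3
    linear_combination (-(y * x ^ (-c).val)) * h3
  · right
    refine ⟨fun σ hσ hσD => (ex_eq_zero hζ hσ hx hx0).1 (hs ⟨σ, hσ⟩ hσD), ?_⟩
    -- the number `k0`
    have hex : ∃ k0 : ℕ, ∃ σ ∈ F.fixingSubgroup, Dec j σ ∧ ¬ (p : ℤ_[p]) ^ (k0 + 1) ∣ chi p σ - 1 := by
      have hσ2 : chi p σn - 1 ≠ 0 := by
        intro h1
        apply hσn2
        rw [sub_eq_zero.1 h1, one_pow]
      refine ⟨(chi p σn - 1).valuation, σn, hσn, hσn1, ?_⟩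
      intro hdvd
      have h2 := PadicInt.mem_span_pow_iff_le_valuation (chi p σn - 1) hσ2 ((chi p σn - 1).valuation + 1)
      rw [Ideal.mem_span_singleton] at h2
      have h3 := h2.1 hdvd
      omega
    obtain ⟨k0, ⟨σ0, hσ0, hσ0D, hσ0n⟩, hmin⟩ : ∃ k0 : ℕ,
        (∃ σ ∈ F.fixingSubgroup, Dec j σ ∧ ¬ (p : ℤ_[p]) ^ (k0 + 1) ∣ chi p σ - 1) ∧
        ∀ σ ∈ F.fixingSubgroup, Dec j σ → (p : ℤ_[p]) ^ k0 ∣ chi p σ - 1 := by
      refine ⟨Nat.find hex, Nat.find_spec hex, fun σ hσ hσD => ?_⟩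
      rcases Nat.eq_zero_or_pos (Nat.find hex) with h2 | h2
      · rw [h2, pow_zero]
        exact one_dvd _
      · have h3 := Nat.find_min hex (m := Nat.find hex - 1) (by omega)
        push Not at h3
        have h4 := h3 σ hσ hσD
        rwa [Nat.sub_add_cancel h2] at h4
    have hk0 : 1 ≤ k0 := by
      by_contra hcon
      have h1 : k0 = 0 := by omega
      apply hσ0n
      rw [h1, zero_add, pow_one]
      exact chi_dvd_p hζ hσ0
    obtain ⟨b, r', hr', hrb⟩ := Nat.exists_eq_pow_mul_and_not_dvd (n := r) (by omega) p hp.1.ne_one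
    -- the estimate
    have hlte : ∀ σ ∈ F.fixingSubgroup, Dec j σ → ∀ θ : ℤ_[p], chi p σ - 1 = (p : ℤ_[p]) ^ k0 * θ →
        (p : ℤ_[p]) ^ (k0 + b + 1) ∣ chi p σ ^ r - 1 - (p : ℤ_[p]) ^ (k0 + b) * (r' * θ) := by
      intro σ _ _ θ hθ
      have h1 := lte hp2 hk0 (x := chi p σ) (θ := θ) (by linear_combination hθ) b r'
      rwa [← hrb] at h1
    have hpp : Prime (p : ℤ_[p]) := PadicInt.prime_p
    have hk1' : k1 = k0 + b := by
      refine le_antisymm ?_ ?_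
      · by_contra hcon
        push Not at hcon
        obtain ⟨θ, hθ⟩ := hmin σ0 hσ0 hσ0D
        obtain ⟨κ, h1, _⟩ := hκ ⟨σ0, hσ0⟩ hσ0D
        simp only at h1
        have h2 : (p : ℤ_[p]) ^ (k0 + b + 1) ∣ chi p σ0 ^ r - 1 := by
          rw [h1]
          exact Dvd.dvd.mul_right (pow_dvd_pow _ hcon) _
        have h3 := (dvd_sub_right h2).1 (hlte σ0 hσ0 hσ0D θ hθ)
        rw [pow_succ] at h3
        have h4 := (mul_dvd_mul_iff_left (pow_ne_zero _ p_ne)).1 h3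
        rcases hpp.dvd_or_dvd h4 with h5 | h5
        · rw [← toZ_eq_zero, map_natCast, ZMod.natCast_eq_zero_iff] at h5
          exact hr' h5
        · apply hσ0n
          rw [hθ, pow_succ]
          exact mul_dvd_mul_left _ h5
      · by_contra hcon
        push Not at hcon
        obtain ⟨σ1, hσ1D, hσ1n⟩ := hk1
        obtain ⟨θ, hθ⟩ := hmin σ1.1 σ1.2 hσ1D
        apply hσ1n
        have h1 := hlte σ1.1 σ1.2 hσ1D θ hθ
        have h2 : (p : ℤ_[p]) ^ (k1 + 1) ∣ (p : ℤ_[p]) ^ (k0 + b) * (r' * θ) :=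
          Dvd.dvd.mul_right (pow_dvd_pow _ hcon) _
        have h3 : (p : ℤ_[p]) ^ (k1 + 1) ∣ chi p σ1.1 ^ r - 1 - (p : ℤ_[p]) ^ (k0 + b) * (r' * θ) :=
          (pow_dvd_pow _ (by omega)).trans h1
        have h4 := dvd_add h3 h2
        rwa [sub_add_cancel] at h4
    have hlam : ∀ σ (hσ : σ ∈ F.fixingSubgroup), Dec j σ → ∀ θ : ℤ_[p], chi p σ - 1 = (p : ℤ_[p]) ^ k0 * θ →
        lam (f ⟨σ, hσ⟩) = c * r' * PadicInt.toZMod θ := by
      intro σ hσ hσD θ hθ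
      obtain ⟨κ, h1, h2⟩ := hκ ⟨σ, hσ⟩ hσD
      simp only at h1
      rw [h2, mul_assoc]
      congr 1
      have h3 := hlte σ hσ hσD θ hθ
      rw [h1, hk1', ← mul_sub, pow_succ] at h3
      have h4 := (mul_dvd_mul_iff_left (pow_ne_zero _ p_ne)).1 h3
      rw [← toZ_eq_zero, map_sub, map_mul, map_natCast, sub_eq_zero] at h4
      exact h4
    -- the root of unity
    have hne : NeZero (p ^ (k0 + 1)) := ⟨(pow_pos hp.1.pos _).ne'⟩
    obtain ⟨z', hz'⟩ := HasEnoughRootsOfUnity.exists_primitiveRoot Ω (p ^ (k0 + 1))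
    have hz'' : IsPrimitiveRoot (z' ^ p ^ k0) p := hz'.pow (pow_pos hp.1.pos _) (pow_succ _ _)
    obtain ⟨b', hb'lt, hb'⟩ := hζ'.eq_pow_of_pow_eq_one hz''.pow_eq_one
    have hb'0 : (b' : ZMod p) ≠ 0 := by
      intro h1
      rw [ZMod.natCast_eq_zero_iff] at h1
      have h2 : b' = 0 := Nat.eq_zero_of_dvd_of_lt h1 hb'lt
      rw [h2, pow_zero] at hb'
      exact hz''.ne_one hp.1.one_lt hb'.symm
    have hact : ∀ σ ∈ F.fixingSubgroup, Dec j σ → ∀ θ : ℤ_[p], chi p σ - 1 = (p : ℤ_[p]) ^ k0 * θ →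
        σ z' = (ζ : Ω) ^ ((b' : ZMod p) * PadicInt.toZMod θ).val * z' := by
      intro σ _ _ θ hθ
      rw [chi_spec (p := p) σ hz'.pow_eq_one]
      have h1 : PadicInt.toZModPow (k0 + 1) (chi p σ) =
          ((1 + p ^ k0 * (PadicInt.toZMod θ).val : ℕ) : ZMod (p ^ (k0 + 1))) := by
        rw [← map_natCast (PadicInt.toZModPow (p := p) (k0 + 1)), toZModPow_eq]
        have h2 : (p : ℤ_[p]) ∣ θ - ((PadicInt.toZMod θ).val : ℤ_[p]) := by
          rw [← toZ_eq_zero, map_sub, map_natCast, ZMod.natCast_zmod_val, sub_self]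
        obtain ⟨w, hw⟩ := h2
        refine ⟨w, ?_⟩
        push_cast
        rw [pow_succ]
        linear_combination hθ + (p : ℤ_[p]) ^ k0 * hw
      rw [h1, pow_val_natCast' hz', pow_add, pow_one, pow_mul, ← hb', pow_val_mul hζ', ← pow_mul, ← pow_mul,
        mul_comm b']
      ring
    set i : ℕ := (-(c * r') * (b' : ZMod p)⁻¹).val with hi
    refine ⟨k0, y * z' ^ i, (z' ^ p) ^ i, ?_, ?_, ?_⟩
    · rw [mul_pow, hy, ← pow_mul, ← pow_mul, mul_comm i p]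
    · have e1 : p * (i * p ^ k0) = p ^ (k0 + 1) * i := by rw [pow_succ]; ring
      rw [← pow_mul, ← pow_mul, e1, pow_mul, hz'.pow_eq_one, one_pow]
    · intro σ hσ hσD
      obtain ⟨θ, hθ⟩ := hmin σ hσ hσD
      have h1 := hact σ hσ hσD θ hθ
      have h2 := hfy ⟨σ, hσ⟩
      rw [hlam σ hσ hσD θ hθ] at h2
      simp only at h2
      refine ⟨?_, ?_⟩
      · rw [map_mul, map_pow, h1, h2, mul_pow, ← pow_val_mul hζ']
        have h3 := pow_val_add hζ' (c * r' * PadicInt.toZMod θ) ((i : ZMod p) * ((b' : ZMod p) * PadicInt.toZMod θ))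
        have h4 : c * r' * PadicInt.toZMod θ + (i : ZMod p) * ((b' : ZMod p) * PadicInt.toZMod θ) = 0 := by
          rw [hi, ZMod.natCast_zmod_val]
          field_simp
          ring
        rw [h4, ZMod.val_zero, pow_zero] at h3
        linear_combination (-(y * z' ^ i)) * h3
      · rw [map_pow, map_pow, h1, mul_pow, ← pow_mul, mul_comm _ p, pow_mul, hζ'.pow_eq_one, one_pow, one_mul]

theorem exists_prime {F : Type} [Field F] [NumberField F] (v : HeightOneSpectrum (𝓞 F)) :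
    ∃ l : ℕ, l.Prime ∧ (l : 𝓞 F) ∈ v.asIdeal := by
  have hP : v.asIdeal.IsMaximal := v.isMaximal
  have hne : v.asIdeal ≠ ⊥ := v.ne_bot
  let _ := Ideal.Quotient.field v.asIdeal
  have : Finite (𝓞 F ⧸ v.asIdeal) := Ideal.finiteQuotientOfFreeOfNeBot _ hne
  cases nonempty_fintype (𝓞 F ⧸ v.asIdeal)
  obtain ⟨p, hc⟩ := CharP.exists (𝓞 F ⧸ v.asIdeal)
  obtain ⟨k, hp, hk⟩ := FiniteField.card (𝓞 F ⧸ v.asIdeal) p
  refine ⟨p, hp, ?_⟩
  rw [← Ideal.Quotient.eq_zero_iff_mem, map_natCast]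
  exact CharP.cast_eq_zero _ _

/-- the order of a number which is a `p`-th power up to a root of unity -/
theorem vl_of_root {p : ℕ} [hp : Fact p.Prime] {F : Type} [Field F] [NumberField F] (v : HeightOneSpectrum (𝓞 F))
    {a : F} (ha : a ≠ 0) {m : ℕ} {ξ s : v.adicCompletion F} (hξ : ξ ^ p ^ m = 1)
    (h : (a : v.adicCompletion F) * ξ = s ^ p) : vl p v a = 0 := by
  have h1 : Valued.v ξ = 1 := by
    have h2 : (Valued.v ξ) ^ p ^ m = 1 := by rw [← map_pow, hξ, map_one]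
    exact (pow_eq_one_iff_of_nonneg zero_le (pow_pos hp.1.pos m).ne').1 h2
  have h2 : v.valuation F a = (Valued.v s) ^ p := by
    rw [← map_pow, ← h, map_mul, h1, mul_one]
    exact (HeightOneSpectrum.valuedAdicCompletion_eq_valuation' v a).symm
  unfold vl
  have hs0 : (Valued.v s : WithZero (Multiplicative ℤ)) ≠ 0 := by
    intro h3
    rw [h3, zero_pow hp.1.ne_zero] at h2
    exact ha ((map_eq_zero _).1 h2)
  rw [h2, WithZero.log_pow]
  simp

theorem con (hBAS : S_BAS) (hCPL : S_CPL) (hPLC : S_PLC) (hNT : S_NT) : S_CON := by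
  classical
  intro p hp hp2 Ω _ _ _ _ F _ ζ hζ r d x hr hd hx f hf a y ha hy hfy
  -- the two cases at the places
  have key : ∀ v : HeightOneSpectrum (𝓞 F), (∃ i : ℕ, Lpw p v (a * d ^ i)) ∨
      (Lpw p v d ∧ ∃ (m : ℕ) (ξ s : v.adicCompletion F), ξ ^ p ^ m = 1 ∧
        (a : v.adicCompletion F) * ξ = s ^ p) := by
    intro v
    obtain ⟨l, hl, hlv⟩ := exists_prime v
    have : Fact l.Prime := ⟨hl⟩
    obtain ⟨j, _, hj1, hj2⟩ := hPLC p Ω F v l hlv
    rcases local_cases hNT hp2 hζ hr hd hx hf hy hfy l j with ⟨i, hi⟩ | ⟨h1, m, Y, z, h2, h3, h4⟩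
    · left
      refine ⟨i, hj1 (a * d ^ i) (y * x ^ i) (mul_ne_zero ha (pow_ne_zero i hd)) ?_ hi⟩
      rw [mul_pow, hy, ← pow_mul, mul_comm i p, pow_mul, hx]
      push_cast
      rfl
    · right
      refine ⟨hj1 d x hd hx h1, m, ?_⟩
      exact hj2 a Y z m h2 h3 h4
  have hBv := fun v => hBAS p F v
  have hvlpow : ∀ (v : HeightOneSpectrum (𝓞 F)) (i : ℕ), vl p v d = 0 → vl p v (d ^ i) = 0 := by
    intro v i h0
    obtain ⟨_, _, _, _, hmul, _, _⟩ := hBv v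
    induction i with
    | zero =>
      have h1 := hmul 1 1 one_ne_zero one_ne_zero
      rw [mul_one] at h1
      rw [pow_zero]
      exact left_eq_add.1 h1
    | succ i ih => rw [pow_succ, hmul _ _ (pow_ne_zero i hd) hd, ih, h0, add_zero]
  have hLpow : ∀ (v : HeightOneSpectrum (𝓞 F)) (i : ℕ), Lpw p v d → Lpw p v (d ^ i) := by
    intro v i h0
    obtain ⟨_, hm, hpw, _, _, _, _⟩ := hBv v
    induction i with
    | zero =>
      have h1 := hpw 1 one_ne_zero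
      rw [one_pow] at h1
      rw [pow_zero]
      exact h1
    | succ i ih =>
      rw [pow_succ]
      exact hm _ _ ih h0
  refine ⟨ha, ?_, ?_, ?_⟩
  · intro v _ hvd
    obtain ⟨hL, _, _, _, hmul, _, _⟩ := hBv v
    rcases key v with ⟨i, hi⟩ | ⟨_, m, ξ, s, h1, h2⟩
    · have h3 := (hL _ hi).2
      rw [hmul _ _ ha (pow_ne_zero i hd), hvlpow v i hvd, add_zero] at h3
      exact h3
    · exact vl_of_root v ha h1 h2
  · intro v _ hvd
    rcases key v with h1 | ⟨h1, _⟩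
    · exact h1
    · exact absurd ((hBv v).1 d h1).2 hvd
  · intro v _
    refine ⟨ha, ?_, ?_⟩
    · intro hnd
      rcases key v with h1 | ⟨h1, _⟩
      · exact h1
      · exact absurd h1 hnd
    · intro hLd
      rcases key v with ⟨i, hi⟩ | ⟨_, m, ξ, s, h1, h2⟩
      · obtain ⟨_, hm, _, hinv, _, _, _⟩ := hBv v
        have h3 := hm _ _ hi (hinv _ (hLpow v i hLd))
        rw [mul_assoc, mul_inv_cancel₀ (pow_ne_zero i hd), mul_one] at h3
        obtain ⟨_, s, hs⟩ := (hCPL p F v a).1 h3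
        exact ⟨1, s, ⟨0, one_pow _⟩, by rw [mul_one, hs]⟩
      · exact ⟨ξ, s, ⟨m, h1⟩, h2⟩

end Pool.Agent.Q123.SP
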